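import Pool.Agent.H316.EM.Stm2

/-!
RED3 of helper316's project EM (MP_e2f787_al); proved by helper289.
-/

set_option autoImplicit false

namespace Pool.Agent.H289.RED3

open Pool.Agent.H316.EM

theorem pow_semi {k : ℕ} {V : Type} [AddCommGroup V] [Module (ZMod 2) V] (D : Dat k V)
    {R₁ : Type} [CommRing R₁] [Module R₁ V] (σ : R₁ ≃+* R₁)
    (ht : ∀ (r : R₁) (v : V), D.t (r • v) = σ r • D.t v) (j : ℕ) (r : R₁) (v : V) :
    (D.t ^ j) (r • v) = (σ ^ j) r • (D.t ^ j) v := by
  induction j generalizing r v with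
  | zero => rw [pow_zero, pow_zero]; rfl
  | succ j ih =>
    rw [pow_succ, pow_succ, LinearEquiv.mul_apply, LinearEquiv.mul_apply, ht, ih]
    rfl

/-- annihilated elements -/
def ann1 {V R₁ : Type} [AddCommGroup V] [CommRing R₁] [Module R₁ V] (P : Ideal R₁) :
    Submodule R₁ V where
  carrier := {v | ∀ r ∈ P, r • v = 0}
  zero_mem' := fun r _ => smul_zero r
  add_mem' := by
    intro a b ha hb r hr
    rw [smul_add, ha r hr, hb r hr, add_zero]
  smul_mem' := by
    intro c v hv r hr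
    rw [smul_comm, hv r hr, smul_zero]

theorem mem_ann1 {V R₁ : Type} [AddCommGroup V] [CommRing R₁] [Module R₁ V] (P : Ideal R₁) (v : V) :
    v ∈ ann1 (V := V) P ↔ ∀ r ∈ P, r • v = 0 := Iff.rfl

theorem core_part (hCORE : S_CORE) (hACC : S_ACC) (hSUB : S_SUB) (hANN : S_ANN) (hORB : S_ORB)
    (k : ℕ) (V : Type) [AddCommGroup V] [Module (ZMod 2) V] (D : Dat k V) (hk : 0 < k) (hJI : D.JI)
    (R₁ : Type) [CommRing R₁] [Algebra (ZMod 2) R₁] [Algebra.FiniteType (ZMod 2) R₁] [Module R₁ V]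
    [IsScalarTower (ZMod 2) R₁ V] (σ : R₁ ≃+* R₁)
    (hL : ∀ l ∈ D.L, ∀ (r : R₁) (v : V), l (r • v) = r • l v)
    (hβ : ∀ b, ∀ (r : R₁) (v : V), D.β b (r • v) = r • D.β b v)
    (ht : ∀ (r : R₁) (v : V), D.t (r • v) = σ r • D.t v)
    (hfin : ∀ (Y : Submodule R₁ V) (j : ℕ), 0 < j → D.Stb j (Y.restrictScalars (ZMod 2)) → Y ≠ ⊥ →
      ∀ P : Ideal R₁, Finite (R₁ ⧸ P) → (∀ r ∈ P, ∀ y ∈ Y, r • y = 0) → False) : False := by
  classical
  have hNT : Nontrivial V := by
    by_contra hcon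
    rw [not_nontrivial_iff_subsingleton] at hcon
    exact D.inf (Set.toFinite _)
  have : IsNoetherianRing R₁ := Algebra.FiniteType.isNoetherianRing (ZMod 2) R₁
  have : SMulCommClass D.L R₁ V := ⟨fun l r v => hL l.1 l.2 r v⟩
  have hacc : ∀ f : ℕ → Submodule R₁ V, Monotone f →
      (∀ n, ∀ g : D.L, ∀ x ∈ f n, g • x ∈ f n) → ∃ n, ∀ m, n ≤ m → f m = f n := by
    intro f hf hg
    obtain ⟨n, hn⟩ := hACC k V D (fun n => (f n).restrictScalars (ZMod 2))
      (fun a b hab => by
        intro x hx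
        exact hf hab hx) (fun n l hl x hx => hg n ⟨l, hl⟩ x hx)
    refine ⟨n, fun m hm => ?_⟩
    exact Submodule.restrictScalars_injective (ZMod 2) R₁ V (hn m hm)
  obtain ⟨P, hP, ⟨j, hj, hjP⟩, ⟨v₀, hv₀, hv₀'⟩, hPann⟩ := hANN R₁ V D.L hacc σ D.t.toAddEquiv ht
  let Y₁ : Submodule R₁ V := ann1 P
  let Y : Submodule (ZMod 2) V := Y₁.restrictScalars (ZMod 2)
  have hYmem : ∀ v, v ∈ Y ↔ ∀ r ∈ P, r • v = 0 := fun v => Iff.rfl
  have hYstb : D.Stb j Y := by
    refine ⟨?_, ?_, ?_⟩
    · intro l hl y hy r hr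
      rw [← hL l hl, hy r hr, map_zero]
    · intro b y hy r hr
      rw [← hβ b, hy r hr, map_zero]
    · intro y
      constructor
      · intro hy r hr
        have h1 : r = (σ ^ j) ((σ ^ j).symm r) := ((σ ^ j).apply_symm_apply r).symm
        rw [h1, ← pow_semi D σ ht, hy, map_zero]
        rw [hjP, ← h1]
        exact hr
      · intro hy r hr
        have h1 := hy ((σ ^ j) r) ((hjP r).1 hr)
        rw [← pow_semi D σ ht] at h1
        exact (LinearEquiv.map_eq_zero_iff _).1 h1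
  have hYne : Y ≠ ⊥ := by
    intro h
    have h1 : v₀ ∈ Y := hv₀'
    rw [h] at h1
    exact hv₀ ((Submodule.mem_bot _).1 h1)
  have hYne1 : Y₁ ≠ ⊥ := by
    intro h
    have h1 : v₀ ∈ Y₁ := hv₀'
    rw [h] at h1
    exact hv₀ ((Submodule.mem_bot _).1 h1)
  have hYfi := hJI j hj Y hYstb hYne
  obtain ⟨D', hA', hα', hβ', ht', hL1, hL2⟩ := hSUB k V D j hj Y hYstb hYfi
  have := hP
  have htor : Module.IsTorsionBySet R₁ Y (P : Set R₁) := by
    intro y r
    apply Subtype.ext
    exact y.2 r.1 r.2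
  let modR : Module (R₁ ⧸ P) Y := Module.IsTorsionBySet.module htor
  have hsm : ∀ (r : R₁) (y : Y), ((Ideal.Quotient.mk P r • y : Y) : V) = r • (y : V) :=
    fun r y => rfl
  have hsurj : ∀ r : R₁ ⧸ P, ∃ r₁ : R₁, Ideal.Quotient.mk P r₁ = r :=
    fun r => Ideal.Quotient.mk_surjective r
  have hLR : ∀ l ∈ D'.L, ∀ (r : R₁ ⧸ P) (y : Y), l (r • y) = r • l y := by
    intro l' hl' r y
    obtain ⟨r₁, rfl⟩ := hsurj r
    obtain ⟨l, hl, hll⟩ := hL1 l' hl'
    apply Subtype.ext
    rw [hll, hsm, hsm, hL l hl, hll]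
  have hβR : ∀ b, ∀ (r : R₁ ⧸ P) (y : Y), D'.β b (r • y) = r • D'.β b y := by
    intro b r y
    obtain ⟨r₁, rfl⟩ := hsurj r
    apply Subtype.ext
    rw [hβ', hsm, hsm, hβ, hβ']
  have : Algebra.FiniteType (ZMod 2) (R₁ ⧸ P) := inferInstance
  refine hCORE (k * j) Y D' (R₁ ⧸ P) (Nat.mul_pos hk hj) ?_ hLR hβR ?_
  · intro r y h
    obtain ⟨r₁, rfl⟩ := hsurj r
    by_cases hy : y = 0
    · exact Or.inr hy
    · left
      rw [Ideal.Quotient.eq_zero_iff_mem]
      refine hPann (y : V) (fun h0 => hy (Subtype.ext h0)) y.2 r₁ ?_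
      rw [← hsm, h]
      rfl
  · intro m hm
    have := hm
    have hm₁ : (m.comap (Ideal.Quotient.mk P)).IsMaximal :=
      Ideal.comap_isMaximal_of_surjective _ Ideal.Quotient.mk_surjective
    obtain ⟨i, hi, him⟩ := hORB R₁ (σ ^ j) (m.comap (Ideal.Quotient.mk P)) hm₁
    have him' : ∀ r, Ideal.Quotient.mk P r ∈ m ↔ Ideal.Quotient.mk P (((σ ^ j) ^ i) r) ∈ m :=
      fun r => him r
    -- powers of `t`
    have htp : ∀ (n : ℕ) (y : Y), (((D'.t ^ n) y : Y) : V) = ((D.t ^ j) ^ n) (y : V) := by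
      intro n
      induction n with
      | zero => intro y; rw [pow_zero, pow_zero]; rfl
      | succ n ih =>
        intro y
        rw [pow_succ, pow_succ, LinearEquiv.mul_apply, LinearEquiv.mul_apply, ih, ht']
    have hsemi : ∀ (n : ℕ) (r : R₁) (v : V), ((D.t ^ j) ^ n) (r • v) =
        (((σ ^ j) ^ n) r) • ((D.t ^ j) ^ n) v := by
      intro n r v
      rw [← pow_mul, ← pow_mul]
      exact pow_semi D σ ht (j * n) r v
    have hstab : ∀ y ∈ mv Y m, (D'.t ^ i) y ∈ mv Y m := by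
      intro y hy
      unfold mv at hy ⊢
      refine Submodule.span_induction (p := fun y _ => (D'.t ^ i) y ∈
        Submodule.span (ZMod 2) {x : Y | ∃ r ∈ m, ∃ v : Y, x = r • v}) ?_ ?_ ?_ ?_ hy
      · rintro x ⟨r, hr, v, rfl⟩
        obtain ⟨r₁, rfl⟩ := hsurj r
        refine Submodule.subset_span ⟨Ideal.Quotient.mk P (((σ ^ j) ^ i) r₁), (him' r₁).1 hr,
          (D'.t ^ i) v, ?_⟩
        apply Subtype.ext
        rw [htp, hsm, hsm, hsemi, htp]
      · rw [map_zero]; exact Submodule.zero_mem _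
      · intro x y _ _ hx hy; rw [map_add]; exact Submodule.add_mem _ hx hy
      · intro c x _ hx; rw [map_smul]; exact Submodule.smul_mem _ c hx
    have hstab' : ∀ y ∈ mv Y m, (D'.t ^ i).symm y ∈ mv Y m := by
      intro y hy
      unfold mv at hy ⊢
      refine Submodule.span_induction (p := fun y _ => (D'.t ^ i).symm y ∈
        Submodule.span (ZMod 2) {x : Y | ∃ r ∈ m, ∃ v : Y, x = r • v}) ?_ ?_ ?_ ?_ hy
      · rintro x ⟨r, hr, v, rfl⟩
        obtain ⟨r₁, rfl⟩ := hsurj r
        have h1 : r₁ = ((σ ^ j) ^ i) (((σ ^ j) ^ i).symm r₁) :=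
          (((σ ^ j) ^ i).apply_symm_apply r₁).symm
        refine Submodule.subset_span ⟨Ideal.Quotient.mk P (((σ ^ j) ^ i).symm r₁), ?_,
          (D'.t ^ i).symm v, ?_⟩
        · rw [him', ← h1]; exact hr
        · rw [LinearEquiv.symm_apply_eq]
          apply Subtype.ext
          rw [htp, hsm, hsm, hsemi, ← h1, ← htp, LinearEquiv.apply_symm_apply]
      · rw [map_zero]; exact Submodule.zero_mem _
      · intro x y _ _ hx hy; rw [map_add]; exact Submodule.add_mem _ hx hy
      · intro c x _ hx; rw [map_smul]; exact Submodule.smul_mem _ c hx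
    have hS' : D'.Stb i (mv Y m) := by
      refine ⟨?_, ?_, ?_⟩
      · intro l hl y hy
        unfold mv at hy ⊢
        refine Submodule.span_induction (p := fun y _ => l y ∈
          Submodule.span (ZMod 2) {x : Y | ∃ r ∈ m, ∃ v : Y, x = r • v}) ?_ ?_ ?_ ?_ hy
        · rintro x ⟨r, hr, v, rfl⟩
          exact Submodule.subset_span ⟨r, hr, l v, hLR l hl r v⟩
        · rw [map_zero]; exact Submodule.zero_mem _
        · intro x y _ _ hx hy; rw [map_add]; exact Submodule.add_mem _ hx hy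
        · intro c x _ hx; rw [map_smul]; exact Submodule.smul_mem _ c hx
      · intro b y hy
        unfold mv at hy ⊢
        refine Submodule.span_induction (p := fun y _ => D'.β b y ∈
          Submodule.span (ZMod 2) {x : Y | ∃ r ∈ m, ∃ v : Y, x = r • v}) ?_ ?_ ?_ ?_ hy
        · rintro x ⟨r, hr, v, rfl⟩
          exact Submodule.subset_span ⟨r, hr, D'.β b v, hβR b r v⟩
        · rw [map_zero]; exact Submodule.zero_mem _
        · intro x y _ _ hx hy; rw [map_add]; exact Submodule.add_mem _ hx hy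
        · intro c x _ hx; rw [map_smul]; exact Submodule.smul_mem _ c hx
      · intro y
        constructor
        · exact hstab y
        · intro hy
          have h1 := hstab' _ hy
          rwa [LinearEquiv.symm_apply_apply] at h1
    refine ⟨i, hi, hS', ?_⟩
    -- the image in `V`
    let W : Submodule (ZMod 2) V := (mv Y m).map Y.subtype
    have hWmem : ∀ v, v ∈ W ↔ ∃ y : Y, y ∈ mv Y m ∧ (y : V) = v := by
      intro v
      show v ∈ (mv Y m).map Y.subtype ↔ _
      rw [Submodule.mem_map]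
      rfl
    have hWstb : D.Stb (j * i) W := by
      refine ⟨?_, ?_, ?_⟩
      · intro l hl v hv
        rw [hWmem] at hv ⊢
        obtain ⟨y, hy, rfl⟩ := hv
        obtain ⟨l', hl', hll⟩ := hL2 l hl
        exact ⟨l' y, hS'.1 l' hl' y hy, hll y⟩
      · intro b v hv
        rw [hWmem] at hv ⊢
        obtain ⟨y, hy, rfl⟩ := hv
        exact ⟨D'.β b y, hS'.2.1 b y hy, hβ' b y⟩
      · intro v
        rw [hWmem, hWmem]
        constructor
        · rintro ⟨y, hy, rfl⟩
          refine ⟨(D'.t ^ i) y, hstab y hy, ?_⟩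
          rw [htp, ← pow_mul]
        · rintro ⟨y, hy, hyv⟩
          refine ⟨(D'.t ^ i).symm y, hstab' y hy, ?_⟩
          apply (D.t ^ (j * i)).injective
          rw [← hyv, pow_mul, ← htp, LinearEquiv.apply_symm_apply]
    have hpre : D'.pre (mv Y m) = D.pre W := by
      ext a
      rw [Dat.mem_pre, Dat.mem_pre, hA', Dat.mem_pre]
      constructor
      · rintro ⟨⟨h1, h2⟩, h3⟩
        refine ⟨h1, ?_⟩
        rw [hWmem]
        exact ⟨D'.α a, h3, hα' a ⟨h1, h2⟩⟩
      · rintro ⟨h1, h2⟩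
        rw [hWmem] at h2
        obtain ⟨y, hy, hya⟩ := h2
        have h3 : D.α a ∈ Y := by rw [← hya]; exact y.2
        refine ⟨⟨h1, h3⟩, ?_⟩
        have h4 : D'.α a = y := by
          apply Subtype.ext
          rw [hα' a ⟨h1, h3⟩, hya]
        rw [h4]
        exact hy
    rw [hpre]
    apply hJI (j * i) (Nat.mul_pos hj hi) W hWstb
    intro hW
    -- `m` kills `Y`
    have hm0 : ∀ r : R₁, Ideal.Quotient.mk P r ∈ m → r ∈ P := by
      intro r hr
      refine hPann v₀ hv₀ hv₀' r ?_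
      have h1 : r • v₀ ∈ W := by
        rw [hWmem]
        refine ⟨Ideal.Quotient.mk P r • (⟨v₀, hv₀'⟩ : Y), ?_, rfl⟩
        exact Submodule.subset_span ⟨_, hr, _, rfl⟩
      rw [hW] at h1
      exact (Submodule.mem_bot _).1 h1
    have hmbot : m = ⊥ := by
      rw [eq_bot_iff]
      intro r hr
      obtain ⟨r₁, rfl⟩ := hsurj r
      rw [Submodule.mem_bot, Ideal.Quotient.eq_zero_iff_mem]
      exact hm0 r₁ hr
    have hfield : IsField (R₁ ⧸ P) := by
      by_contra hcon
      exact Ring.ne_bot_of_isMaximal_of_not_isField hm hcon hmbot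
    have hPmax : P.IsMaximal := Ideal.Quotient.maximal_of_isField P hfield
    have hfinR : Finite (R₁ ⧸ P) := by
      let _ := Ideal.Quotient.field P
      have h1 : Module.Finite (ZMod 2) (R₁ ⧸ P) :=
        finite_of_finite_type_of_isJacobsonRing (ZMod 2) (R₁ ⧸ P)
      exact Module.finite_of_finite (ZMod 2)
    exact hfin Y₁ j hj hYstb hYne1 P hfinR (fun r hr y hy => hy r hr)

/-! ### the action of the group algebra -/

section Act

variable {V : Type} [AddCommGroup V] [Module (ZMod 2) V] {Z : Type} [CommGroup Z] (ι : Z →* Au V)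

/-- the action of the group algebra -/
noncomputable def act : MonoidAlgebra (ZMod 2) Z →ₐ[ZMod 2] Module.End (ZMod 2) V :=
  MonoidAlgebra.lift (ZMod 2) (Module.End (ZMod 2) V) Z
    ((LinearEquiv.automorphismGroup.toLinearMapMonoidHom).comp ι)

theorem act_single (z : Z) (c : ZMod 2) (v : V) :
    act ι (MonoidAlgebra.single z c) v = c • (ι z) v := by
  unfold act
  rw [MonoidAlgebra.lift_single]
  rfl

/-- automorphisms of the group algebra -/
noncomputable def dc : MulAut Z →* (MonoidAlgebra (ZMod 2) Z ≃ₐ[ZMod 2] MonoidAlgebra (ZMod 2) Z) :=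
  MonoidAlgebra.domCongrAut

theorem act_conj (g : Au V) (f : MulAut Z) (h : ∀ z, g * ι z = ι (f z) * g)
    (e : MonoidAlgebra (ZMod 2) Z) (v : V) :
    g (act ι e v) = act ι (dc f e) (g v) := by
  induction e using MonoidAlgebra.induction_linear with
  | zero => rw [map_zero, map_zero, map_zero, LinearMap.zero_apply, map_zero, LinearMap.zero_apply]
  | add x y hx hy =>
    rw [map_add, map_add, map_add, LinearMap.add_apply, LinearMap.add_apply, map_add, hx, hy]
  | single z c =>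
    have h1 : dc f (MonoidAlgebra.single z c) =
        MonoidAlgebra.single (f z) c := MonoidAlgebra.domCongr_single f z c
    rw [h1, act_single, act_single, map_smul]
    have h2 : (g * ι z) v = (ι (f z) * g) v := by rw [h z]
    rw [LinearEquiv.mul_apply, LinearEquiv.mul_apply] at h2
    rw [h2]

theorem act_comm (g : Au V) (h : ∀ z, g * ι z = ι z * g)
    (e : MonoidAlgebra (ZMod 2) Z) (v : V) : g (act ι e v) = act ι e (g v) := by
  have h1 := act_conj ι g 1 h e v
  rw [map_one] at h1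
  exact h1

end Act

/-- restriction of an automorphism -/
def restr {G : Type} [Group G] (H : Subgroup G) (f : MulAut G) (h1 : ∀ z ∈ H, f z ∈ H)
    (h2 : ∀ z ∈ H, f⁻¹ z ∈ H) : MulAut H where
  toFun z := ⟨f z, h1 z z.2⟩
  invFun z := ⟨f⁻¹ z, h2 z z.2⟩
  left_inv z := Subtype.ext (f.symm_apply_apply z.1)
  right_inv z := Subtype.ext (f.apply_symm_apply z.1)
  map_mul' x y := Subtype.ext (map_mul f x.1 y.1)

theorem fg_sub {G : Type} [CommGroup G] [Group.FG G] (H : Subgroup G) : Group.FG H := by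
  have h1 : AddGroup.FG (Additive G) := GroupFG.iff_add_fg.1 inferInstance
  have h2 : Module.Finite ℤ (Additive G) := Module.Finite.iff_addGroup_fg.2 h1
  have h3 : IsNoetherian ℤ (Additive G) := inferInstance
  have h4 := h3.noetherian (AddSubgroup.toIntSubmodule H.toAddSubgroup)
  rw [Group.fg_iff_subgroup_fg, Subgroup.fg_iff_add_fg]
  rw [Submodule.fg_iff_addSubgroup_fg] at h4
  exact h4

/-! ### conjugation actions on `L` -/

section LL

variable {k : ℕ} {V : Type} [AddCommGroup V] [Module (ZMod 2) V] (D : Dat k V)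

/-- `L` is a commutative group -/
@[reducible] def LC : CommGroup D.L :=
  { (inferInstance : Group D.L) with
    mul_comm := fun x y => Subtype.ext (D.Lcomm x.1 x.2 y.1 y.2) }

theorem Lβ' (b : B) (l : Au V) (hl : l ∈ D.L) : (D.β b)⁻¹ * l * D.β b ∈ D.L := by
  have h := D.Lβ b⁻¹ l hl
  rw [map_inv, inv_inv] at h
  exact h

/-- conjugation by `β b` -/
def rho0 (b : B) : MulAut D.L where
  toFun l := ⟨D.β b * l.1 * (D.β b)⁻¹, D.Lβ b l.1 l.2⟩
  invFun l := ⟨(D.β b)⁻¹ * l.1 * D.β b, Lβ' D b l.1 l.2⟩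
  left_inv l := Subtype.ext (by
    show (D.β b)⁻¹ * (D.β b * l.1 * (D.β b)⁻¹) * D.β b = l.1
    group)
  right_inv l := Subtype.ext (by
    show D.β b * ((D.β b)⁻¹ * l.1 * D.β b) * (D.β b)⁻¹ = l.1
    group)
  map_mul' x y := Subtype.ext (by
    show D.β b * (x.1 * y.1) * (D.β b)⁻¹ = D.β b * x.1 * (D.β b)⁻¹ * (D.β b * y.1 * (D.β b)⁻¹)
    group)

def rho : B →* MulAut D.L where
  toFun := rho0 D
  map_one' := by
    refine MulEquiv.ext fun l => Subtype.ext ?_
    show D.β 1 * l.1 * (D.β 1)⁻¹ = l.1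
    rw [map_one]
    group
  map_mul' x y := by
    refine MulEquiv.ext fun l => Subtype.ext ?_
    show D.β (x * y) * l.1 * (D.β (x * y))⁻¹ = D.β x * (D.β y * l.1 * (D.β y)⁻¹) * (D.β x)⁻¹
    rw [map_mul]
    group

theorem rho_coe (b : B) (l : D.L) : ((rho D b l : D.L) : Au V) = D.β b * l.1 * (D.β b)⁻¹ := rfl

/-- conjugation by `t` -/
def tau : MulAut D.L where
  toFun l := ⟨D.t * l.1 * D.t⁻¹, (D.Lt l.1).1 l.2⟩
  invFun l := ⟨D.t⁻¹ * l.1 * D.t, (D.Lt _).2 (by
    have h : D.t * (D.t⁻¹ * l.1 * D.t) * D.t⁻¹ = l.1 := by group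
    rw [h]
    exact l.2)⟩
  left_inv l := Subtype.ext (by
    show D.t⁻¹ * (D.t * l.1 * D.t⁻¹) * D.t = l.1
    group)
  right_inv l := Subtype.ext (by
    show D.t * (D.t⁻¹ * l.1 * D.t) * D.t⁻¹ = l.1
    group)
  map_mul' x y := Subtype.ext (by
    show D.t * (x.1 * y.1) * D.t⁻¹ = D.t * x.1 * D.t⁻¹ * (D.t * y.1 * D.t⁻¹)
    group)

theorem tau_coe (l : D.L) : ((tau D l : D.L) : Au V) = D.t * l.1 * D.t⁻¹ := rfl

theorem tau_inv_coe (l : D.L) : (((tau D)⁻¹ l : D.L) : Au V) = D.t⁻¹ * l.1 * D.t := rfl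

theorem tau_rho (b : B) : tau D * rho D b * (tau D)⁻¹ = rho D ((th ^ k) b) := by
  refine MulEquiv.ext fun l => Subtype.ext ?_
  show D.t * (D.β b * (D.t⁻¹ * l.1 * D.t) * (D.β b)⁻¹) * D.t⁻¹ =
    D.β ((th ^ k) b) * l.1 * (D.β ((th ^ k) b))⁻¹
  rw [← D.tβ b]
  group

theorem L_infinite : Infinite D.L := by
  by_contra hcon
  rw [not_infinite_iff_finite] at hcon
  obtain ⟨S, hS⟩ := D.fg
  have h1 : {x : V | ∃ l ∈ D.L, ∃ s ∈ S, x = l s}.Finite := by
    have h2 : {x : V | ∃ l ∈ D.L, ∃ s ∈ S, x = l s} ⊆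
        (fun p : D.L × V => p.1.1 p.2) '' ((Set.univ : Set D.L) ×ˢ (S : Set V)) := by
      rintro x ⟨l, hl, s, hs, rfl⟩
      exact ⟨(⟨l, hl⟩, s), ⟨Set.mem_univ _, hs⟩, rfl⟩
    exact ((Set.finite_univ.prod S.finite_toSet).image _).subset h2
  have h3 : Module.Finite (ZMod 2) V := ⟨⟨h1.toFinset, by rw [Set.Finite.coe_toFinset]; exact hS⟩⟩
  have h4 : Finite V := Module.finite_of_finite (ZMod 2)
  exact D.inf (Set.toFinite _)

end LL

/-! ### the finite case -/

theorem fin_part {k : ℕ} {V : Type} [AddCommGroup V] [Module (ZMod 2) V] (D : Dat k V)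
    {Z : Type} [CommGroup Z] (ι : Z →* Au V) (hι : ∀ z, ι z ∈ D.L)
    (R₁ : Type) [CommRing R₁] [Algebra R₁ (MonoidAlgebra (ZMod 2) Z)] (z : Z)
    (hint : IsIntegral R₁ (MonoidAlgebra.single z (1 : ZMod 2))) (Y : Submodule (ZMod 2) V)
    (hY : ∀ l ∈ D.L, ∀ y ∈ Y, l y ∈ Y) (P : Ideal R₁) (hfinP : Finite (R₁ ⧸ P))
    (hP : ∀ r ∈ P, ∀ y ∈ Y, act ι (algebraMap R₁ (MonoidAlgebra (ZMod 2) Z) r) y = 0) :
    ∃ n : ℕ, 0 < n ∧ ∀ y ∈ Y, ((ι z) ^ n) y = y := by
  have hYe : ∀ e : MonoidAlgebra (ZMod 2) Z, ∀ y ∈ Y, act ι e y ∈ Y := by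
    intro e y hy
    induction e using MonoidAlgebra.induction_linear with
    | zero => rw [map_zero, LinearMap.zero_apply]; exact Y.zero_mem
    | add a b ha hb => rw [map_add, LinearMap.add_apply]; exact Y.add_mem ha hb
    | single w c => rw [act_single]; exact Y.smul_mem c (hY _ (hι w) y hy)
  let χ₀ : MonoidAlgebra (ZMod 2) Z →+* Module.End (ZMod 2) Y :=
    { toFun := fun e => (act ι e).restrict (hYe e)
      map_one' := by
        ext y
        rw [LinearMap.coe_restrict_apply, map_one]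
        rfl
      map_mul' := by
        intro a b
        ext y
        rw [LinearMap.coe_restrict_apply, map_mul]
        rfl
      map_zero' := by
        ext y
        rw [LinearMap.coe_restrict_apply, map_zero]
        rfl
      map_add' := by
        intro a b
        ext y
        rw [LinearMap.coe_restrict_apply, map_add]
        rfl }
  have hχ₀ : ∀ e (y : Y), ((χ₀ e y : Y) : V) = act ι e y := fun e y => rfl
  let modY : Module R₁ Y := Module.compHom Y (χ₀.comp (algebraMap R₁ (MonoidAlgebra (ZMod 2) Z)))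
  have hsm : ∀ (r : R₁) (y : Y), r • y = χ₀ (algebraMap R₁ (MonoidAlgebra (ZMod 2) Z) r) y :=
    fun r y => rfl
  have htor : Module.IsTorsionBySet R₁ Y (P : Set R₁) := by
    intro y r
    apply Subtype.ext
    exact hP r.1 r.2 y y.2
  let modYP : Module (R₁ ⧸ P) Y := Module.IsTorsionBySet.module htor
  have hsmP : ∀ (r : R₁) (y : Y), (Ideal.Quotient.mk P r) • y = r • y := fun r y => rfl
  let χ : MonoidAlgebra (ZMod 2) Z →+* Module.End (R₁ ⧸ P) Y :=
    { toFun := fun e =>
        { toFun := fun y => χ₀ e y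
          map_add' := fun x y => map_add _ x y
          map_smul' := by
            intro r y
            obtain ⟨r₁, rfl⟩ := Ideal.Quotient.mk_surjective r
            rw [hsmP, hsm, RingHom.id_apply, hsmP, hsm]
            have h1 : (χ₀ e * χ₀ (algebraMap R₁ (MonoidAlgebra (ZMod 2) Z) r₁)) y =
                (χ₀ (algebraMap R₁ (MonoidAlgebra (ZMod 2) Z) r₁) * χ₀ e) y := by
              rw [← map_mul, ← map_mul, mul_comm]
            exact h1 }
      map_one' := by
        refine LinearMap.ext fun y => ?_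
        show χ₀ 1 y = y
        rw [map_one]
        rfl
      map_mul' := by
        intro a b
        refine LinearMap.ext fun y => ?_
        show χ₀ (a * b) y = χ₀ a (χ₀ b y)
        rw [map_mul]
        rfl
      map_zero' := by
        refine LinearMap.ext fun y => ?_
        show χ₀ 0 y = 0
        rw [map_zero]
        rfl
      map_add' := by
        intro a b
        refine LinearMap.ext fun y => ?_
        show χ₀ (a + b) y = χ₀ a y + χ₀ b y
        rw [map_add]
        rfl }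
  have hcomp : (algebraMap (R₁ ⧸ P) (Module.End (R₁ ⧸ P) Y)).comp (Ideal.Quotient.mk P) =
      χ.comp (algebraMap R₁ (MonoidAlgebra (ZMod 2) Z)) := by
    refine RingHom.ext fun r => LinearMap.ext fun y => ?_
    rfl
  have hI := IsIntegral.map_of_comp_eq (Ideal.Quotient.mk P) χ hcomp hint
  have hfg := hI.fg_adjoin_singleton
  have hmf : Module.Finite (R₁ ⧸ P)
      (Subalgebra.toSubmodule (Algebra.adjoin (R₁ ⧸ P) {χ (MonoidAlgebra.single z 1)})) :=
    Module.Finite.iff_fg.2 hfg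
  have hff : Finite (Subalgebra.toSubmodule
      (Algebra.adjoin (R₁ ⧸ P) {χ (MonoidAlgebra.single z 1)})) :=
    Module.finite_of_finite (R₁ ⧸ P)
  let f : ℕ → Subalgebra.toSubmodule (Algebra.adjoin (R₁ ⧸ P) {χ (MonoidAlgebra.single z 1)}) :=
    fun n => ⟨(χ (MonoidAlgebra.single z 1)) ^ n,
      Subalgebra.pow_mem _ (Algebra.subset_adjoin (Set.mem_singleton _)) n⟩
  obtain ⟨m, n, hmn, hf⟩ := Finite.exists_ne_map_eq_of_infinite f
  have hpow : ∀ (n : ℕ) (y : Y), (((χ (MonoidAlgebra.single z 1)) ^ n) y : V) =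
      ((ι z) ^ n) (y : V) := by
    intro n y
    rw [← map_pow, MonoidAlgebra.single_pow, one_pow]
    show act ι (MonoidAlgebra.single (z ^ n) 1) y = _
    rw [act_single, one_smul, map_pow]
  have hmain : ∀ m n : ℕ, m < n → f m = f n → ∃ n : ℕ, 0 < n ∧ ∀ y ∈ Y, ((ι z) ^ n) y = y := by
    intro m n hlt h
    refine ⟨n - m, by omega, ?_⟩
    intro y hy
    have h1 : (χ (MonoidAlgebra.single z 1)) ^ m = (χ (MonoidAlgebra.single z 1)) ^ n :=
      congrArg Subtype.val h
    have h2 := hpow m ⟨y, hy⟩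
    have h3 := hpow n ⟨y, hy⟩
    rw [h1, h3] at h2
    have h4 : (ι z) ^ n = (ι z) ^ m * (ι z) ^ (n - m) := by
      rw [← pow_add]
      congr 1
      omega
    rw [h4, LinearEquiv.mul_apply] at h2
    exact ((ι z) ^ m).injective h2
  rcases Nat.lt_or_gt_of_ne hmn with hlt | hlt
  · exact hmain m n hlt hf
  · exact hmain n m hlt hf.symm

end Pool.Agent.H289.RED3

namespace Pool.Agent.H289

open Pool.Agent.H316.EM RED3

theorem em_red3 : S_RED3 := by
  intro hCORE hACC hSUB hUNI hFIX hART hANN hORB k V _ _ D hk hJI hLT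
  let _ : CommGroup D.L := LC D
  have hLfg : Group.FG D.L := (Group.fg_iff_subgroup_fg D.L).2 D.Lfg
  obtain ⟨N, c, hN, hNc⟩ := hUNI D.L (rho D) (tau D) k hk (tau_rho D)
  have hinf := L_infinite D
  obtain ⟨z, hz, hz'⟩ := hFIX D.L ((rho D).comp (powMonoidHom N)) c hNc
  -- the group of the elements commuting with the `N`-th powers
  let Z : Subgroup D.L :=
    { carrier := {z | ∀ b, rho D (b ^ N) z = z}
      mul_mem' := by
        intro x y hx hy b
        rw [map_mul, hx b, hy b]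
      one_mem' := fun b => map_one _
      inv_mem' := by
        intro x hx b
        rw [map_inv, hx b] }
  have hZ : ∀ z, z ∈ Z ↔ ∀ b, rho D (b ^ N) z = z := fun z => Iff.rfl
  have hZfg : Group.FG Z := fg_sub Z
  have hcZ : ∀ b, ∀ z ∈ Z, rho D b z ∈ Z := by
    intro b z hz b'
    have h1 : rho D (b' ^ N) (rho D b z) = rho D b (rho D (b' ^ N) z) := by
      rw [← MulAut.mul_apply, ← map_mul, mul_comm, map_mul, MulAut.mul_apply]
    rw [h1, hz b']
  have hcZ' : ∀ b, ∀ z ∈ Z, (rho D b)⁻¹ z ∈ Z := by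
    intro b z hz
    rw [← map_inv]
    exact hcZ b⁻¹ z hz
  let cZ : B →* MulAut Z :=
    { toFun := fun b => restr Z (rho D b) (hcZ b) (hcZ' b)
      map_one' := by
        refine MulEquiv.ext fun x => Subtype.ext ?_
        show rho D 1 x.1 = x.1
        rw [map_one]
        rfl
      map_mul' := by
        intro a b
        refine MulEquiv.ext fun x => Subtype.ext ?_
        show rho D (a * b) x.1 = rho D a (rho D b x.1)
        rw [map_mul]
        rfl }
  have htr : ∀ b x, tau D (rho D b x) = rho D ((th ^ k) b) (tau D x) := by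
    intro b x
    rw [← tau_rho D b, MulAut.mul_apply, MulAut.mul_apply]
    congr 2
    exact ((tau D).symm_apply_apply x).symm
  have htZ : ∀ z ∈ Z, tau D z ∈ Z := by
    intro z hz b
    have h1 : b ^ N = (th ^ k) ((((th ^ k)⁻¹ : MulAut B) b) ^ N) := by
      rw [map_pow]
      congr 1
      exact ((th ^ k).apply_symm_apply b).symm
    rw [h1, ← htr, hz]
  have htZ' : ∀ z ∈ Z, (tau D)⁻¹ z ∈ Z := by
    intro z hz b
    apply (tau D).injective
    rw [htr, map_pow]
    have h2 : tau D ((tau D)⁻¹ z) = z := (tau D).apply_symm_apply z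
    rw [h2]
    exact hz _
  let tZ : MulAut Z := restr Z (tau D) htZ htZ'
  have htc : ∀ b, tZ * cZ b = cZ ((th ^ k) b) * tZ := by
    intro b
    refine MulEquiv.ext fun x => Subtype.ext ?_
    exact htr b x.1
  let ι : Z →* Au V := (D.L.subtype).comp Z.subtype
  have hι : ∀ z, ι z ∈ D.L := fun z => z.1.2
  let φ : B →* (MonoidAlgebra (ZMod 2) Z ≃ₐ[ZMod 2] MonoidAlgebra (ZMod 2) Z) := dc.comp cZ
  have hφ : ∀ b, φ b = dc (cZ b) := fun b => rfl
  have hφN : ∀ b, φ (b ^ N) = 1 := by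
    intro b
    have h1 : cZ (b ^ N) = 1 := by
      refine MulEquiv.ext fun x => Subtype.ext ?_
      exact x.2 b
    rw [hφ, h1, map_one]
  let R : Subalgebra (ZMod 2) (MonoidAlgebra (ZMod 2) Z) :=
    { carrier := {e | ∀ b, φ b e = e}
      mul_mem' := by
        intro x y hx hy b
        rw [map_mul, hx b, hy b]
      add_mem' := by
        intro x y hx hy b
        rw [map_add, hx b, hy b]
      algebraMap_mem' := fun r b => (φ b).commutes r }
  have hR : ∀ e, e ∈ R ↔ ∀ b, φ b e = e := fun e => Iff.rfl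
  obtain ⟨hRft, hRint⟩ := hART (MonoidAlgebra (ZMod 2) Z) φ N hN hφN R hR
  -- the automorphism `σ`
  have hσc : ∀ b e, dc tZ (φ b e) = φ ((th ^ k) b) (dc tZ e) := by
    intro b e
    rw [hφ, hφ, ← AlgEquiv.mul_apply, ← AlgEquiv.mul_apply, ← map_mul, ← map_mul, htc]
  have hσ : ∀ e ∈ R, dc tZ e ∈ R := by
    intro e he b
    have h1 : b = (th ^ k) (((th ^ k)⁻¹ : MulAut B) b) := ((th ^ k).apply_symm_apply b).symm
    rw [h1, ← hσc, he]
  have hσ' : ∀ e ∈ R, (dc tZ).symm e ∈ R := by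
    intro e he b
    apply (dc tZ).injective
    rw [hσc, AlgEquiv.apply_symm_apply]
    exact he _
  let σ : R ≃+* R :=
    { toFun := fun r => ⟨dc tZ r.1, hσ r.1 r.2⟩
      invFun := fun r => ⟨(dc tZ).symm r.1, hσ' r.1 r.2⟩
      left_inv := fun r => Subtype.ext ((dc tZ).symm_apply_apply r.1)
      right_inv := fun r => Subtype.ext ((dc tZ).apply_symm_apply r.1)
      map_mul' := fun x y => Subtype.ext (map_mul (dc tZ) x.1 y.1)
      map_add' := fun x y => Subtype.ext (map_add (dc tZ) x.1 y.1) }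
  let modR : Module R V := Module.compHom V
    ((act ι : MonoidAlgebra (ZMod 2) Z →+* Module.End (ZMod 2) V).comp
      (algebraMap R (MonoidAlgebra (ZMod 2) Z)))
  have hsm : ∀ (r : R) (v : V), r • v = act ι (r : MonoidAlgebra (ZMod 2) Z) v := fun r v => rfl
  have hst : IsScalarTower (ZMod 2) R V := by
    refine ⟨fun c r v => ?_⟩
    rw [hsm, hsm]
    show act ι (c • (r : MonoidAlgebra (ZMod 2) Z)) v = _
    rw [map_smul]
    rfl
  refine core_part hCORE hACC hSUB hANN hORB k V D hk hJI R σ ?_ ?_ ?_ ?_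
  · intro l hl r v
    rw [hsm, hsm]
    exact act_comm ι l (fun z => D.Lcomm l hl _ (hι z)) r v
  · intro b r v
    rw [hsm, hsm]
    have h1 := act_conj ι (D.β b) (cZ b) (fun z => by
      show D.β b * z.1.1 = (D.β b * z.1.1 * (D.β b)⁻¹) * D.β b
      group) (r : MonoidAlgebra (ZMod 2) Z) v
    rw [h1]
    congr 2
    exact r.2 b
  · intro r v
    rw [hsm, hsm]
    exact act_conj ι D.t tZ (fun z => by
      show D.t * z.1.1 = (D.t * z.1.1 * D.t⁻¹) * D.t
      group) (r : MonoidAlgebra (ZMod 2) Z) v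
  · intro Y j hj hYst hYne P hPfin hPY
    have hzZ : z ∈ Z := hz
    obtain ⟨n, hn, hny⟩ := fin_part D ι hι R (⟨z, hzZ⟩ : Z) (hRint _)
      (Y.restrictScalars (ZMod 2)) hYst.1 P hPfin (fun r hr y hy => hPY r hr y hy)
    obtain ⟨n', hn', hzn⟩ := hLT j hj (Y.restrictScalars (ZMod 2)) hYst (by
      intro h
      apply hYne
      rw [eq_bot_iff]
      intro y hy
      have h1 : y ∈ Y.restrictScalars (ZMod 2) := hy
      rw [h] at h1
      exact h1) z.1 z.2 ⟨n, hn, hny⟩
    exact hz' n' hn' (Subtype.ext hzn)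

end Pool.Agent.H289
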