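import Mathlib
import Pool.Agent.H979.GW.StmA

set_option autoImplicit false
set_option linter.unusedSectionVars false
set_option linter.unusedVariables false

open MeasureTheory ProbabilityTheory Filter Topology Set
open scoped ENNReal NNReal

/-!
# Project GW (helper979), task LLN: the strong law of large numbers along the generations
-/

namespace Pool.Agent.H289

open Pool.Agent.H979.GW

namespace GWL

section det

variable {Q : Type} [Fintype Q] [DecidableEq Q]

theorem it_succ (f : Q → Env Q → ℝ) (k : ℕ) (a : Q) (ω : Env Q) :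
    TT^[k + 1] f a ω = ∑ c ∈ chd (ω []), TT^[k] f c.1 (sh [c] ω) := by
  rw [Function.iterate_succ_apply']
  rfl

theorem it_add (f g : Q → Env Q → ℝ) (k : ℕ) (a : Q) (ω : Env Q) :
    TT^[k] (fun b ω => f b ω + g b ω) a ω = TT^[k] f a ω + TT^[k] g a ω := by
  induction k generalizing a ω with
  | zero => rfl
  | succ k ih =>
    rw [it_succ, it_succ, it_succ, ← Finset.sum_add_distrib]
    exact Finset.sum_congr rfl fun c _ => ih _ _

theorem it_mul (x : ℝ) (f : Q → Env Q → ℝ) (k : ℕ) (a : Q) (ω : Env Q) :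
    TT^[k] (fun b ω => x * f b ω) a ω = x * TT^[k] f a ω := by
  induction k generalizing a ω with
  | zero => rfl
  | succ k ih =>
    rw [it_succ, it_succ, Finset.mul_sum]
    exact Finset.sum_congr rfl fun c _ => ih _ _

theorem it_mono {f g : Q → Env Q → ℝ} (h : ∀ b ω, f b ω ≤ g b ω) (k : ℕ) (a : Q) (ω : Env Q) :
    TT^[k] f a ω ≤ TT^[k] g a ω := by
  induction k generalizing a ω with
  | zero => exact h a ω
  | succ k ih =>
    rw [it_succ, it_succ]
    exact Finset.sum_le_sum fun c _ => ih _ _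

theorem it_nonneg {f : Q → Env Q → ℝ} (h : ∀ b ω, 0 ≤ f b ω) (k : ℕ) (a : Q) (ω : Env Q) :
    0 ≤ TT^[k] f a ω := by
  induction k generalizing a ω with
  | zero => exact h a ω
  | succ k ih =>
    rw [it_succ]
    exact Finset.sum_nonneg fun c _ => ih _ _

theorem it_abs (f : Q → Env Q → ℝ) (k : ℕ) (a : Q) (ω : Env Q) :
    |TT^[k] f a ω| ≤ TT^[k] (fun b ω => |f b ω|) a ω := by
  induction k generalizing a ω with
  | zero => exact le_rfl
  | succ k ih =>
    rw [it_succ, it_succ]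
    exact (Finset.abs_sum_le_sum_abs _ _).trans (Finset.sum_le_sum fun c _ => ih _ _)

theorem it_nat {u : Q → Env Q → ℝ} (hu : ∀ b ω, ∃ n : ℕ, u b ω = n) (k : ℕ) (a : Q) (ω : Env Q) :
    ∃ n : ℕ, TT^[k] u a ω = n := by
  induction k generalizing a ω with
  | zero => exact hu a ω
  | succ k ih =>
    choose n hn using ih
    refine ⟨∑ c ∈ chd (ω []), n c.1 (sh [c] ω), ?_⟩
    rw [it_succ]
    push_cast
    exact Finset.sum_congr rfl fun c _ => hn _ _

theorem it_zero {u g : Q → Env Q → ℝ} (hu : ∀ b ω, 0 ≤ u b ω) (hg : ∀ b ω, u b ω = 0 → g b ω = 0)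
    (k : ℕ) (a : Q) (ω : Env Q) (h : TT^[k] u a ω = 0) : TT^[k] g a ω = 0 := by
  induction k generalizing a ω with
  | zero => exact hg a ω h
  | succ k ih =>
    rw [it_succ] at h ⊢
    refine Finset.sum_eq_zero fun c hc => ih _ _ ?_
    exact (Finset.sum_eq_zero_iff_of_nonneg fun c _ => it_nonneg hu k _ _).1 h c hc

end det

/-! ### Real lemmas -/

section real

variable {ρ : ℝ} (hρ : 1 < ρ)
include hρ

theorem sum1 {x : ℝ} (hx : 0 ≤ x) (n : ℕ) :
    ∑ k ∈ Finset.range n, ρ ^ k * (if ρ ^ k < x then 1 else 0) ≤ ρ / (ρ - 1) * x := by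
  have h0 : 0 < ρ - 1 := by linarith
  have key : (ρ - 1) * ∑ k ∈ Finset.range n, ρ ^ k * (if ρ ^ k < x then 1 else 0) ≤ ρ * x ∧
      (ρ - 1) * ∑ k ∈ Finset.range n, ρ ^ k * (if ρ ^ k < x then 1 else 0) ≤ ρ ^ n := by
    induction n with
    | zero =>
      constructor
      · simp only [Finset.range_zero, Finset.sum_empty, mul_zero]
        positivity
      · simp
    | succ n ih =>
      obtain ⟨h1, h2⟩ := ih
      rw [Finset.sum_range_succ]
      by_cases h : ρ ^ n < x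
      · rw [if_pos h, mul_one, mul_add]
        have h3 : (ρ - 1) * ∑ k ∈ Finset.range n, ρ ^ k * (if ρ ^ k < x then 1 else 0) +
            (ρ - 1) * ρ ^ n ≤ ρ * ρ ^ n := by linarith
        constructor
        · refine h3.trans ?_
          exact mul_le_mul_of_nonneg_left h.le (by linarith)
        · rw [pow_succ']
          exact h3
      · rw [if_neg h, mul_zero, add_zero]
        refine ⟨h1, h2.trans ?_⟩
        exact pow_le_pow_right₀ hρ.le (Nat.le_succ n)
  rw [div_mul_eq_mul_div, le_div_iff₀ h0, mul_comm]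
  exact key.1

theorem geo (n : ℕ) : ∑ k ∈ Finset.range n, (ρ⁻¹) ^ k ≤ ρ / (ρ - 1) := by
  have h0 : 0 < ρ - 1 := by linarith
  have h1 : (ρ⁻¹) < 1 := inv_lt_one_of_one_lt₀ hρ
  have h2 : 0 ≤ ρ⁻¹ := by positivity
  have h3 := (summable_geometric_of_lt_one h2 h1).sum_le_tsum (Finset.range n)
    (fun i _ => by positivity)
  rw [tsum_geometric_of_lt_one h2 h1] at h3
  have h4 : (1 - ρ⁻¹)⁻¹ = ρ / (ρ - 1) := by
    have : ρ ≠ 0 := by linarith
    rw [inv_eq_one_div, div_eq_div_iff]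
    · field_simp
    · rw [sub_ne_zero]
      exact h1.ne'
    · exact h0.ne'
  rw [← h4]
  exact h3

theorem sum2 (n : ℕ) : ∀ {x : ℝ}, 0 ≤ x →
    ∑ k ∈ Finset.range n, (ρ⁻¹) ^ k * (if x ≤ ρ ^ k then x ^ 2 else 0) ≤ ρ / (ρ - 1) * x := by
  have h0 : 0 < ρ - 1 := by linarith
  have hρ0 : 0 < ρ := by linarith
  induction n with
  | zero =>
    intro x hx
    rw [Finset.range_zero, Finset.sum_empty]
    positivity
  | succ n ih =>
    intro x hx
    by_cases hx1 : x ≤ 1
    · have h1 : ∑ k ∈ Finset.range (n + 1), (ρ⁻¹) ^ k * (if x ≤ ρ ^ k then x ^ 2 else 0) ≤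
          ∑ k ∈ Finset.range (n + 1), (ρ⁻¹) ^ k * x := by
        refine Finset.sum_le_sum fun k _ => ?_
        refine mul_le_mul_of_nonneg_left ?_ (by positivity)
        split_ifs
        · nlinarith
        · exact hx
      refine h1.trans ?_
      rw [← Finset.sum_mul]
      exact mul_le_mul_of_nonneg_right (geo hρ (n + 1)) hx
    · rw [Finset.sum_range_succ']
      have h1 : ∑ k ∈ Finset.range n, (ρ⁻¹) ^ (k + 1) * (if x ≤ ρ ^ (k + 1) then x ^ 2 else 0) =
          ρ * ∑ k ∈ Finset.range n, (ρ⁻¹) ^ k * (if x / ρ ≤ ρ ^ k then (x / ρ) ^ 2 else 0) := by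
        rw [Finset.mul_sum]
        refine Finset.sum_congr rfl fun k _ => ?_
        have e1 : (x / ρ ≤ ρ ^ k) ↔ (x ≤ ρ ^ (k + 1)) := by
          rw [div_le_iff₀ hρ0, pow_succ]
        by_cases h : x ≤ ρ ^ (k + 1)
        · rw [if_pos h, if_pos (e1.2 h), pow_succ]
          field_simp
        · rw [if_neg h, if_neg (fun h' => h (e1.1 h')), mul_zero, mul_zero, mul_zero]
      rw [h1, pow_zero, pow_zero, if_neg hx1, mul_zero, add_zero]
      have h2 := ih (x := x / ρ) (by positivity)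
      calc ρ * ∑ k ∈ Finset.range n, (ρ⁻¹) ^ k * (if x / ρ ≤ ρ ^ k then (x / ρ) ^ 2 else 0) ≤
            ρ * (ρ / (ρ - 1) * (x / ρ)) := mul_le_mul_of_nonneg_left h2 hρ0.le
        _ = ρ / (ρ - 1) * x := by field_simp

end real

/-- truncation at `M` -/
noncomputable def tr (M x : ℝ) : ℝ := if |x| ≤ M then x else 0

/-- the indicator of `|x| > M` -/
noncomputable def ind (M x : ℝ) : ℝ := if M < |x| then 1 else 0

theorem meas_tr (M : ℝ) : Measurable (tr M) :=
  Measurable.ite (measurableSet_le measurable_norm measurable_const) measurable_id measurable_const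

theorem meas_ind (M : ℝ) : Measurable (ind M) :=
  Measurable.ite (measurableSet_lt measurable_const measurable_norm) measurable_const
    measurable_const

theorem tr_abs (M x : ℝ) : |tr M x| ≤ |x| := by
  unfold tr
  split_ifs
  · exact le_rfl
  · rw [abs_zero]
    exact abs_nonneg x

theorem tr_le {M : ℝ} (hM : 0 ≤ M) (x : ℝ) : |tr M x| ≤ M := by
  unfold tr
  split_ifs with h
  · exact h
  · rw [abs_zero]
    exact hM

theorem tr_sq (M x : ℝ) : tr M x ^ 2 = if |x| ≤ M then |x| ^ 2 else 0 := by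
  unfold tr
  split_ifs
  · rw [sq_abs]
  · norm_num

theorem ind_nonneg (M x : ℝ) : 0 ≤ ind M x := by
  unfold ind
  split_ifs <;> norm_num

theorem ind_le (M x : ℝ) : |ind M x| ≤ 1 := by
  unfold ind
  split_ifs <;> norm_num

theorem ind_zero {M x : ℝ} (h : ind M x = 0) : x - tr M x = 0 := by
  unfold ind at h
  unfold tr
  split_ifs at h with h1
  · exact absurd h one_ne_zero
  · rw [if_pos (not_lt.1 h1), sub_self]

section prob

variable {Q : Type} [Fintype Q] [DecidableEq Q] {q : Q → Measure (Q → ℕ)}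
  [∀ a, IsProbabilityMeasure (q a)]

/-- iterated first moments -/
theorem M1k (h1 : S_M1 q) {f : Q → Env Q → ℝ} (hf : ∀ b, Integrable (f b) (law q b)) (k : ℕ)
    (a : Q) : Integrable (TT^[k] f a) (law q a) ∧
      ∫ ω, TT^[k] f a ω ∂(law q a) = ∑ b, ((mA q) ^ k) a b * ∫ ω, f b ω ∂(law q b) := by
  induction k generalizing a with
  | zero =>
    refine ⟨hf a, ?_⟩
    simp only [Function.iterate_zero, id_eq, pow_zero]
    rw [Finset.sum_eq_single a]
    · rw [Matrix.one_apply_eq, one_mul]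
    · intro b _ hb
      rw [Matrix.one_apply_ne hb.symm, zero_mul]
    · intro h
      exact absurd (Finset.mem_univ a) h
  | succ k ih =>
    obtain ⟨i1, i2⟩ := h1.2 (TT^[k] f) (fun b => (ih b).1) a
    rw [Function.iterate_succ_apply']
    refine ⟨i1, ?_⟩
    rw [i2]
    simp_rw [(ih _).2]
    simp_rw [Finset.mul_sum]
    rw [Finset.sum_comm]
    refine Finset.sum_congr rfl fun b _ => ?_
    rw [pow_succ', Matrix.mul_apply, Finset.sum_mul]
    exact Finset.sum_congr rfl fun c _ => (mul_assoc _ _ _).symm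

variable {ρ : ℝ} {e m : Q → ℝ} {C r : ℝ}

theorem mA_nonneg (a b : Q) : 0 ≤ mA q a b := integral_nonneg fun x => Nat.cast_nonneg _

theorem pow_nn (k : ℕ) (a b : Q) : 0 ≤ ((mA q) ^ k) a b := by
  induction k generalizing a b with
  | zero =>
    rw [pow_zero, Matrix.one_apply]
    split_ifs <;> norm_num
  | succ k ih =>
    rw [pow_succ', Matrix.mul_apply]
    exact Finset.sum_nonneg fun c _ => mul_nonneg (mA_nonneg a c) (ih c b)

theorem pow_bd (hy : Hyp q ρ e m C r) : ∃ K : ℝ, 0 ≤ K ∧ ∀ (k : ℕ) (a b : Q),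
    ((mA q) ^ k) a b ≤ K * ρ ^ k := by
  have hρ := hy.rho
  have hρ0 : 0 < ρ := by linarith
  have pf := hy.pf
  refine ⟨(∑ b, m b) * (∑ a, e a) + C, ?_, fun k a b => ?_⟩
  · have h1 : 0 ≤ ∑ b, m b := Finset.sum_nonneg fun b _ => (pf.m_pos b).le
    have h2 : 0 ≤ ∑ b, e b := Finset.sum_nonneg fun b _ => (pf.e_pos b).le
    have h3 := pf.C_nonneg
    positivity
  have h1 := pf.conv (Pi.single b 1) 1 (fun b' => by
    rw [Pi.single_apply]
    split_ifs <;> norm_num) k a
  rw [Matrix.mulVec_single_one] at h1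
  have h2 : ∑ b', m b' * (Pi.single b (1 : ℝ) : Q → ℝ) b' = m b := by
    rw [Finset.sum_eq_single b]
    · rw [Pi.single_eq_same, mul_one]
    · intro c _ hc
      rw [Pi.single_eq_of_ne hc, mul_zero]
    · intro h
      exact absurd (Finset.mem_univ b) h
  rw [h2] at h1
  have h3 : (ρ⁻¹) ^ k * ((mA q) ^ k) a b ≤ m b * e a + C := by
    have h4 := (abs_le.1 h1).2
    have h5 : r ^ k ≤ 1 := pow_le_one₀ pf.r_nonneg pf.r_lt.le
    have h6 : C * r ^ k * 1 ≤ C := by
      rw [mul_one]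
      exact mul_le_of_le_one_right pf.C_nonneg h5
    have h7 : ((mA q) ^ k).col b a = ((mA q) ^ k) a b := rfl
    rw [h7] at h4
    linarith
  have h4 : m b * e a ≤ (∑ b, m b) * (∑ a, e a) := by
    refine mul_le_mul ?_ ?_ (pf.e_pos a).le (Finset.sum_nonneg fun b _ => (pf.m_pos b).le)
    · exact Finset.single_le_sum (f := m) (fun b _ => (pf.m_pos b).le) (Finset.mem_univ b)
    · exact Finset.single_le_sum (f := e) (fun b _ => (pf.e_pos b).le) (Finset.mem_univ a)
  have h5 : ((mA q) ^ k) a b = ρ ^ k * ((ρ⁻¹) ^ k * ((mA q) ^ k) a b) := by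
    rw [← mul_assoc, ← mul_pow, mul_inv_cancel₀ hρ0.ne', one_pow, one_mul]
  rw [h5, mul_comm (_ + C)]
  exact mul_le_mul_of_nonneg_left (h3.trans (by linarith)) (by positivity)

/-- the iterates of constants, normalised, converge -/
theorem const_lim (hW : S_W q ρ e m) (ψ : Q → ℝ) (a : Q) : ∀ᵐ ω ∂(law q a),
    Tendsto (fun k : ℕ => (ρ⁻¹) ^ k * TT^[k] (fun b _ => ψ b) a ω) atTop
      (𝓝 ((∑ b, m b * ψ b) * WW ρ e a ω)) := by
  obtain ⟨-, -, -, -, -, -, h⟩ := hW
  obtain ⟨K, s, hK, hs, hs1, h⟩ := h (fun b _ => ψ b) (fun b => memLp_const _)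
  have e1 : ∀ b, ∫ ω, ψ b ∂(law q b) = ψ b := fun b => by simp
  simp only [e1] at h
  have h2 := ae_tendsto_zero_real (μ := law q a) (X := fun k ω => ((ρ⁻¹) ^ k *
      TT^[k] (fun b _ => ψ b) a ω - (∑ b, m b * ψ b) * WW ρ e a ω) ^ 2)
    (fun k => (h k a).1.integrable_sq) (by
      refine Summable.of_nonneg_of_le (fun k => integral_nonneg fun ω => abs_nonneg _) (fun k => ?_)
        ((summable_geometric_of_lt_one hs hs1).mul_left K)
      have e2 : ∀ x : ℝ, |x ^ 2| = x ^ 2 := fun x => abs_of_nonneg (sq_nonneg x)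
      simp only [e2]
      exact (h k a).2)
  filter_upwards [h2] with ω hω
  have h3 : Tendsto (fun k => (ρ⁻¹) ^ k *
      TT^[k] (fun b _ => ψ b) a ω - (∑ b, m b * ψ b) * WW ρ e a ω) atTop (𝓝 0) := by
    have h4 := hω.sqrt
    rw [Real.sqrt_zero] at h4
    simp only [Real.sqrt_sq_eq_abs] at h4
    exact (tendsto_zero_iff_abs_tendsto_zero _).2 h4
  have h5 := h3.add_const ((∑ b, m b * ψ b) * WW ρ e a ω)
  simpa using h5

end prob

end GWL

open GWL in
/-- **Task LLN.** -/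
theorem gw_lln {Q : Type} [Fintype Q] [DecidableEq Q] (q : Q → Measure (Q → ℕ))
    [∀ a, IsProbabilityMeasure (q a)] {ρ : ℝ} {e m : Q → ℝ} {C r : ℝ} (hy : Hyp q ρ e m C r)
    (h1 : S_M1 q) (h3 : S_MZ q) (h4 : S_W q ρ e m) : S_LLN q ρ e m := by
  intro f hf a
  have hρ := hy.rho
  have hρ0 : 0 < ρ := by linarith
  obtain ⟨K, hK, hA⟩ := pow_bd hy
  have hab : ∀ b, Integrable (fun ω => |f b ω|) (law q b) := fun b => (hf b).abs
  -- the truncated functions
  have hindI : ∀ k b, Integrable (fun ω => ind (ρ ^ k) (f b ω)) (law q b) := fun k b =>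
    Integrable.of_bound ((meas_ind _).comp_aemeasurable (hf b).aemeasurable).aestronglyMeasurable 1
      (Eventually.of_forall fun ω => ind_le _ _)
  have htrM : ∀ k b, AEStronglyMeasurable (fun ω => tr (ρ ^ k) (f b ω)) (law q b) := fun k b =>
    ((meas_tr _).comp_aemeasurable (hf b).aemeasurable).aestronglyMeasurable
  have htrI : ∀ k b, Integrable (fun ω => tr (ρ ^ k) (f b ω)) (law q b) := fun k b =>
    Integrable.of_bound (htrM k b) (ρ ^ k)
      (Eventually.of_forall fun ω => tr_le (by positivity) _)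
  have htrL : ∀ k b, MemLp (fun ω => tr (ρ ^ k) (f b ω)) 2 (law q b) := fun k b =>
    MemLp.of_bound (htrM k b) (ρ ^ k)
      (Eventually.of_forall fun ω => tr_le (by positivity) _)
  -- (1)
  have s1 : ∀ b, Summable fun k : ℕ => ρ ^ k * ∫ ω, ind (ρ ^ k) (f b ω) ∂(law q b) := by
    intro b
    refine summable_of_sum_range_le (c := ∫ ω, ρ / (ρ - 1) * |f b ω| ∂(law q b))
      (fun k => mul_nonneg (by positivity) (integral_nonneg fun ω => ind_nonneg _ _)) fun n => ?_
    simp_rw [← integral_const_mul]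
    rw [← integral_finsetSum _ fun k _ => (hindI k b).const_mul _]
    refine integral_mono (integrable_finsetSum _ fun k _ => (hindI k b).const_mul _)
      ((hab b).const_mul _) fun ω => ?_
    exact sum1 hρ (abs_nonneg (f b ω)) n
  have a1 : ∀ᵐ ω ∂(law q a), ∀ᶠ k : ℕ in atTop,
      TT^[k] (fun b ω => f b ω - tr (ρ ^ k) (f b ω)) a ω = 0 := by
    have h5 := ae_tendsto_zero_real (μ := law q a)
      (X := fun k ω => TT^[k] (fun b ω => ind (ρ ^ k) (f b ω)) a ω)
      (fun k => (M1k h1 (hindI k) k a).1) (by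
        refine Summable.of_nonneg_of_le (fun k => integral_nonneg fun ω => abs_nonneg _) (fun k => ?_)
          ((summable_sum (s := Finset.univ) fun b _ => s1 b).mul_left K)
        have e2 : ∀ ω, |TT^[k] (fun b ω => ind (ρ ^ k) (f b ω)) a ω| =
            TT^[k] (fun b ω => ind (ρ ^ k) (f b ω)) a ω := fun ω =>
          abs_of_nonneg (it_nonneg (fun b ω => ind_nonneg _ _) k a ω)
        simp only [e2]
        rw [(M1k h1 (hindI k) k a).2, Finset.mul_sum]
        refine Finset.sum_le_sum fun b _ => ?_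
        rw [← mul_assoc]
        exact mul_le_mul_of_nonneg_right (hA k a b) (integral_nonneg fun ω => ind_nonneg _ _))
    filter_upwards [h5] with ω hω
    filter_upwards [hω.eventually_lt_const (show (0 : ℝ) < 1 by norm_num)] with k hk
    refine it_zero (u := fun b ω => ind (ρ ^ k) (f b ω)) (fun b ω => ind_nonneg _ _)
      (fun b ω h => ind_zero h) k a ω ?_
    obtain ⟨n, hn⟩ := it_nat (u := fun b ω => ind (ρ ^ k) (f b ω)) (fun b ω => by
      unfold ind
      split_ifs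
      · exact ⟨1, by norm_num⟩
      · exact ⟨0, by norm_num⟩) k a ω
    rw [hn] at hk ⊢
    have : n < 1 := by exact_mod_cast hk
    have h0 : n = 0 := by omega
    rw [h0, Nat.cast_zero]
  -- (2)
  have s2 : ∀ b, Summable fun k : ℕ => (ρ⁻¹) ^ k * ∫ ω, tr (ρ ^ k) (f b ω) ^ 2 ∂(law q b) := by
    intro b
    refine summable_of_sum_range_le (c := ∫ ω, ρ / (ρ - 1) * |f b ω| ∂(law q b))
      (fun k => mul_nonneg (by positivity) (integral_nonneg fun ω => sq_nonneg _)) fun n => ?_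
    simp_rw [← integral_const_mul]
    rw [← integral_finsetSum _ fun k _ => ((htrL k b).integrable_sq).const_mul _]
    refine integral_mono (integrable_finsetSum _ fun k _ => ((htrL k b).integrable_sq).const_mul _)
      ((hab b).const_mul _) fun ω => ?_
    simp only [tr_sq]
    exact sum2 hρ n (abs_nonneg (f b ω))
  have hgL : ∀ k b, MemLp (fun ω => tr (ρ ^ k) (f b ω) - ∫ ω, tr (ρ ^ k) (f b ω) ∂(law q b)) 2
      (law q b) := fun k b => (htrL k b).sub (memLp_const _)
  have hg0 : ∀ k b, ∫ ω, (tr (ρ ^ k) (f b ω) - ∫ ω, tr (ρ ^ k) (f b ω) ∂(law q b)) ∂(law q b) = 0 := by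
    intro k b
    rw [integral_sub (htrI k b) (integrable_const _)]
    simp
  have hg2 : ∀ k b, ∫ ω, (tr (ρ ^ k) (f b ω) - ∫ ω, tr (ρ ^ k) (f b ω) ∂(law q b)) ^ 2 ∂(law q b) ≤
      ∫ ω, tr (ρ ^ k) (f b ω) ^ 2 ∂(law q b) := by
    intro k b
    obtain ⟨c, hc⟩ : ∃ c, c = ∫ ω, tr (ρ ^ k) (f b ω) ∂(law q b) := ⟨_, rfl⟩
    rw [← hc]
    have e1 : (fun ω => (tr (ρ ^ k) (f b ω) - c) ^ 2) =
        fun ω => tr (ρ ^ k) (f b ω) ^ 2 - (2 * c * tr (ρ ^ k) (f b ω) - c ^ 2) := by
      funext ω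
      ring
    have i1 : Integrable (fun ω => 2 * c * tr (ρ ^ k) (f b ω)) (law q b) := (htrI k b).const_mul _
    have i2 : Integrable (fun _ : Env Q => c ^ 2) (law q b) := integrable_const _
    have i3 : Integrable (fun ω => 2 * c * tr (ρ ^ k) (f b ω) - c ^ 2) (law q b) := i1.sub i2
    rw [e1, integral_sub (htrL k b).integrable_sq i3, integral_sub i1 i2, integral_const_mul, ← hc]
    simp only [integral_const, probReal_univ, smul_eq_mul, one_mul]
    nlinarith [sq_nonneg c]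
  have a2 : ∀ᵐ ω ∂(law q a), Tendsto (fun k : ℕ => (ρ⁻¹) ^ k *
      TT^[k] (fun b ω => tr (ρ ^ k) (f b ω) - ∫ ω, tr (ρ ^ k) (f b ω) ∂(law q b)) a ω) atTop (𝓝 0) := by
    have h5 := ae_tendsto_zero_real (μ := law q a)
      (X := fun k ω => ((ρ⁻¹) ^ k *
        TT^[k] (fun b ω => tr (ρ ^ k) (f b ω) - ∫ ω, tr (ρ ^ k) (f b ω) ∂(law q b)) a ω) ^ 2)
      (fun k => ((h3 _ (hgL k) (hg0 k) k a).1.const_mul _).integrable_sq) (by
        refine Summable.of_nonneg_of_le (fun k => integral_nonneg fun ω => abs_nonneg _) (fun k => ?_)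
          ((summable_sum (s := Finset.univ) fun b _ => s2 b).mul_left K)
        have e2 : ∀ x : ℝ, |x ^ 2| = x ^ 2 := fun x => abs_of_nonneg (sq_nonneg x)
        simp only [e2]
        simp only [mul_pow]
        rw [integral_const_mul, (h3 _ (hgL k) (hg0 k) k a).2.2, Finset.mul_sum, Finset.mul_sum]
        refine Finset.sum_le_sum fun b _ => ?_
        have e3 : ((ρ⁻¹) ^ k) ^ 2 * ρ ^ k = (ρ⁻¹) ^ k := by
          rw [pow_two, mul_assoc, ← mul_pow, inv_mul_cancel₀ hρ0.ne', one_pow, mul_one]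
        calc ((ρ⁻¹) ^ k) ^ 2 * (((mA q) ^ k) a b *
              ∫ ω, (tr (ρ ^ k) (f b ω) - ∫ ω, tr (ρ ^ k) (f b ω) ∂(law q b)) ^ 2 ∂(law q b))
            ≤ ((ρ⁻¹) ^ k) ^ 2 * ((K * ρ ^ k) * ∫ ω, tr (ρ ^ k) (f b ω) ^ 2 ∂(law q b)) := by
              refine mul_le_mul_of_nonneg_left ?_ (by positivity)
              exact mul_le_mul (hA k a b) (hg2 k b) (integral_nonneg fun ω => sq_nonneg _)
                (by positivity)
          _ = K * ((((ρ⁻¹) ^ k) ^ 2 * ρ ^ k) * ∫ ω, tr (ρ ^ k) (f b ω) ^ 2 ∂(law q b)) := by ring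
          _ = _ := by rw [e3])
    filter_upwards [h5] with ω hω
    have h6 := hω.sqrt
    rw [Real.sqrt_zero] at h6
    simp only [Real.sqrt_sq_eq_abs] at h6
    exact (tendsto_zero_iff_abs_tendsto_zero _).2 h6
  -- (3)
  have c1 : ∀ b, Tendsto (fun k : ℕ => ∫ ω, tr (ρ ^ k) (f b ω) ∂(law q b)) atTop
      (𝓝 (∫ ω, f b ω ∂(law q b))) := by
    intro b
    refine tendsto_integral_of_dominated_convergence (fun ω => |f b ω|) (fun k => htrM k b) (hab b)
      (fun k => Eventually.of_forall fun ω => tr_abs _ _) (Eventually.of_forall fun ω => ?_)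
    have h5 : ∀ᶠ k : ℕ in atTop, |f b ω| ≤ ρ ^ k :=
      (tendsto_pow_atTop_atTop_of_one_lt hρ).eventually_ge_atTop _
    refine tendsto_const_nhds.congr' ?_
    filter_upwards [h5] with k hk
    unfold tr
    rw [if_pos hk]
  have c2 : Tendsto (fun k : ℕ => ∑ b, |(∫ ω, tr (ρ ^ k) (f b ω) ∂(law q b)) -
      ∫ ω, f b ω ∂(law q b)|) atTop (𝓝 0) := by
    have h5 : Tendsto (fun k : ℕ => ∑ b, |(∫ ω, tr (ρ ^ k) (f b ω) ∂(law q b)) -
      ∫ ω, f b ω ∂(law q b)|) atTop (𝓝 (∑ b : Q, 0)) := by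
      refine tendsto_finsetSum _ fun b _ => ?_
      have h6 := ((c1 b).sub_const (∫ ω, f b ω ∂(law q b))).abs
      rwa [sub_self, abs_zero] at h6
    rwa [Finset.sum_const_zero] at h5
  filter_upwards [a1, a2, const_lim h4 (fun b => ∫ ω, f b ω ∂(law q b)) a,
    const_lim h4 (fun _ => 1) a] with ω b1 b2 b3 b4
  -- the error of the means
  have b5 : Tendsto (fun k : ℕ => (ρ⁻¹) ^ k * TT^[k] (fun b _ =>
      (∫ ω, tr (ρ ^ k) (f b ω) ∂(law q b)) - ∫ ω, f b ω ∂(law q b)) a ω) atTop (𝓝 0) := by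
    have h5 := c2.mul b4
    rw [zero_mul] at h5
    refine squeeze_zero_norm (fun k => ?_) h5
    rw [Real.norm_eq_abs, abs_mul, abs_of_nonneg (show 0 ≤ (ρ⁻¹) ^ k by positivity)]
    have h6 := it_abs (fun b (_ : Env Q) =>
      (∫ ω, tr (ρ ^ k) (f b ω) ∂(law q b)) - ∫ ω, f b ω ∂(law q b)) k a ω
    have h7 := it_mono (f := fun b (_ : Env Q) => |(∫ ω, tr (ρ ^ k) (f b ω) ∂(law q b)) -
      ∫ ω, f b ω ∂(law q b)|) (g := fun b (_ : Env Q) => (∑ b, |(∫ ω, tr (ρ ^ k) (f b ω) ∂(law q b)) -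
      ∫ ω, f b ω ∂(law q b)|) * 1) (fun b _ => by
        rw [mul_one]
        exact Finset.single_le_sum (f := fun b => |(∫ ω, tr (ρ ^ k) (f b ω) ∂(law q b)) -
          ∫ ω, f b ω ∂(law q b)|) (fun b _ => abs_nonneg _) (Finset.mem_univ b)) k a ω
    rw [it_mul] at h7
    calc _ ≤ (ρ⁻¹) ^ k * ((∑ b, |(∫ ω, tr (ρ ^ k) (f b ω) ∂(law q b)) -
      ∫ ω, f b ω ∂(law q b)|) * TT^[k] (fun _ _ => 1) a ω) :=
          mul_le_mul_of_nonneg_left (h6.trans h7) (by positivity)
      _ = _ := by ring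
  have b6 := (b2.add b5).add b3
  rw [zero_add, zero_add] at b6
  refine b6.congr' ?_
  filter_upwards [b1] with k hk
  have e1 : TT^[k] f a ω = TT^[k] (fun b ω => f b ω - tr (ρ ^ k) (f b ω)) a ω +
      (TT^[k] (fun b ω => tr (ρ ^ k) (f b ω) - ∫ ω, tr (ρ ^ k) (f b ω) ∂(law q b)) a ω +
      (TT^[k] (fun b _ => (∫ ω, tr (ρ ^ k) (f b ω) ∂(law q b)) - ∫ ω, f b ω ∂(law q b)) a ω +
        TT^[k] (fun b _ => ∫ ω, f b ω ∂(law q b)) a ω)) := by
    rw [← it_add, ← it_add, ← it_add]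
    have e2 : f = fun b ω => f b ω - tr (ρ ^ k) (f b ω) +
        (tr (ρ ^ k) (f b ω) - ∫ (ω : Env Q), tr (ρ ^ k) (f b ω) ∂law q b +
          (∫ (ω : Env Q), tr (ρ ^ k) (f b ω) ∂law q b - ∫ (ω : Env Q), f b ω ∂law q b +
            ∫ (ω : Env Q), f b ω ∂law q b)) := by
      funext b ω
      ring
    exact congrFun (congrFun (congrArg (TT^[k]) e2) a) ω
  rw [e1, hk]
  ring

end Pool.Agent.H289
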