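import Pool.Agent.H468.QF.Stm

/-!
# Task N2C of helper468 (helper289): any place over `2`
-/

set_option autoImplicit false

namespace Pool.Agent.H289.QFN2C

open Pool.Agent.H743.X17 (LS)

theorem t_N2C : Pool.Agent.H468.QF.S_N2C := by
  intro K _ w hw2 h2 u v hv hLS
  obtain ⟨x, y, hy, hxy, -, hsq⟩ := hLS
  push_cast at hxy hsq
  have hy2 : y ^ 2 ≠ 0 := pow_ne_zero 2 hy
  have hx : x ≠ 0 := by
    rintro rfl
    apply hy2
    rw [hxy]
    ring
  have hx1 : x + 1 ≠ 0 := by
    intro h
    apply hy2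
    rw [hxy, h]
    ring
  obtain ⟨b, hb⟩ := hsq
  have hb0 : b ≠ 0 := by
    rintro rfl
    rw [mul_zero] at hb
    rcases mul_eq_zero.1 hb with h | h
    · exact hx1 h
    · exact hv h
  have h4 : (4 : K) ≠ 0 := by
    have : (4 : K) = 2 * 2 := by norm_num
    rw [this]
    exact mul_ne_zero h2 h2
  have hw4 : w (4 : K) ≠ 0 := (Valuation.ne_zero_iff w).2 h4
  have hwx : w x ≠ 0 := (Valuation.ne_zero_iff w).2 hx
  rcases le_or_gt (w x) (w (4 : K)) with h | h
  · refine ⟨b / v, x / 4, ?_, ?_⟩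
    · rw [map_div₀]
      exact div_le_one_of_le₀ h zero_le
    · have e : (v : K) * (b / v) ^ 2 = (b * b) / v := by
        field_simp
      rw [e, ← hb]
      field_simp
      ring
  · refine ⟨y / (x * b), -4 / x, ?_, ?_⟩
    · rw [map_div₀, Valuation.map_neg]
      exact div_le_one_of_le₀ h.le zero_le
    · have e : (v : K) * (y / (x * b)) ^ 2 = v * y ^ 2 / (x ^ 2 * (b * b)) := by
        field_simp
      rw [e, hxy, ← hb]
      field_simp
      ring

end Pool.Agent.H289.QFN2C
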