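import Pool.Agent.H812.Tm.Spec3

/-!
# Gluing line fields on a surface (`GGlue`)
-/

set_option autoImplicit false

open Filter Topology Set
open scoped ContDiff Manifold

namespace Pool.Agent.H289.TmGlue

open Pool.Agent.H812.Tm (C1At)

abbrev E3 := ℝ × ℝ × ℝ

/-! ### Linear algebra -/

/-- the trace of a continuous linear map -/
noncomputable def trL : (E3 →L[ℝ] E3) →L[ℝ] ℝ :=
  LinearMap.toContinuousLinearMap ((LinearMap.trace ℝ E3).comp (ContinuousLinearMap.coeLM ℝ))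

theorem trL_apply (M : E3 →L[ℝ] E3) : trL M = LinearMap.trace ℝ E3 (M : E3 →ₗ[ℝ] E3) := rfl

/-- the discriminant -/
noncomputable def dis (M : E3 →L[ℝ] E3) : ℝ := 2 * trL (M.comp M) - trL M ^ 2

/-- the spectral map -/
noncomputable def Phi (M : E3 →L[ℝ] E3) : E3 →L[ℝ] E3 :=
  M.comp M - ((trL M - √(dis M)) / 2) • M

theorem rank_one (l : E3 →L[ℝ] ℝ) (hl : l ≠ 0) (M : E3 →L[ℝ] E3) (hM : ∀ v, l (M v) = 0)
    (hD : 0 ≤ dis M) (e e' : E3) (he : Phi M e ≠ 0) : ∃ c : ℝ, Phi M e' = c • Phi M e := by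
  set T : Submodule ℝ E3 := LinearMap.ker (l : E3 →ₗ[ℝ] ℝ) with hT
  have hl' : (l : E3 →ₗ[ℝ] ℝ) ≠ 0 := by
    intro h
    apply hl
    exact ContinuousLinearMap.ext fun v => LinearMap.congr_fun h v
  have hfr : Module.finrank ℝ T = 2 := by
    have h1 := Module.Dual.finrank_ker_add_one_of_ne_zero hl'
    have h2 : Module.finrank ℝ E3 = 3 := by
      rw [Module.finrank_prod, Module.finrank_prod, Module.finrank_self]
    rw [h2] at h1
    have h3 : Module.finrank ℝ (LinearMap.ker (l : E3 →ₗ[ℝ] ℝ)) = 2 := by omega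
    exact h3
  have hMT : ∀ x, (M : E3 →ₗ[ℝ] E3) x ∈ T := fun x => hM x
  set f : T →ₗ[ℝ] T := (M : E3 →ₗ[ℝ] E3).restrict (fun x _ => hMT x) with hf
  have hfM : ∀ x : T, ((f x : T) : E3) = M x := fun x => rfl
  have htr1 : LinearMap.trace ℝ T f = trL M :=
    LinearMap.trace_restrict_eq_of_forall_mem T (M : E3 →ₗ[ℝ] E3) hMT
  have htr2 : LinearMap.trace ℝ T (f.comp f) = trL (M.comp M) := by
    have h1 := LinearMap.trace_restrict_eq_of_forall_mem T
      ((M.comp M : E3 →L[ℝ] E3) : E3 →ₗ[ℝ] E3) (fun x => hMT (M x))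
    rw [trL_apply, ← h1]
    rfl
  let b : Module.Basis (Fin 2) ℝ T := Module.finBasisOfFinrankEq ℝ T hfr
  set A := LinearMap.toMatrix b b f with hA
  have e1 : A 0 0 + A 1 1 = trL M := by
    rw [← htr1, LinearMap.trace_eq_matrix_trace ℝ b f, Matrix.trace_fin_two]
  have e2 : A 0 0 * A 0 0 + A 0 1 * A 1 0 + (A 1 0 * A 0 1 + A 1 1 * A 1 1) = trL (M.comp M) := by
    rw [← htr2, LinearMap.trace_eq_matrix_trace ℝ b, LinearMap.toMatrix_comp b b b f f,
      Matrix.trace_fin_two, Matrix.mul_apply, Matrix.mul_apply, Fin.sum_univ_two,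
      Fin.sum_univ_two]
  set s := √(dis M) with hs
  have hss : s * s = dis M := Real.mul_self_sqrt hD
  set μ := (trL M - s) / 2 with hμ
  have hdet : (A 0 0 - μ) * (A 1 1 - μ) - A 0 1 * A 1 0 = 0 := by
    have h1 : dis M = 2 * trL (M.comp M) - trL M ^ 2 := rfl
    rw [h1, ← e1, ← e2] at hss
    rw [← e1] at hμ
    rw [hμ]
    linear_combination (1 / 4) * hss
  -- the images
  have hval : ∀ x : E3, Phi M x = M (M x) - μ • M x := by
    intro x
    rfl
  let y : E3 → T := fun x => ⟨M x, hMT x⟩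
  have hval2 : ∀ x : E3, Phi M x = ((f (y x) - μ • y x : T) : E3) := by
    intro x
    rw [hval]
    rfl
  have hc : ∀ w : T, ∀ i, b.repr (f w - μ • w) i =
      A i 0 * b.repr w 0 + A i 1 * b.repr w 1 - μ * b.repr w i := by
    intro w i
    rw [map_sub, map_smul, Finsupp.sub_apply, Finsupp.smul_apply, smul_eq_mul]
    congr 1
    have h1 := congrFun (LinearMap.toMatrix_mulVec_repr b b f w) i
    rw [← h1, ← hA, Matrix.mulVec, dotProduct, Fin.sum_univ_two]
  set X := f (y e) - μ • y e with hX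
  set Y := f (y e') - μ • y e' with hY
  have hcross : b.repr X 0 * b.repr Y 1 - b.repr X 1 * b.repr Y 0 = 0 := by
    rw [hX, hY, hc, hc, hc, hc]
    linear_combination (b.repr (y e) 0 * b.repr (y e') 1 - b.repr (y e) 1 * b.repr (y e') 0) * hdet
  have hXne : X ≠ 0 := by
    intro h
    apply he
    rw [hval2, ← hX, h]
    rfl
  have hfin : ∃ c : ℝ, Y = c • X := by
    by_cases h0 : b.repr X 0 = 0
    · have h1 : b.repr X 1 ≠ 0 := by
        intro h1
        apply hXne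
        apply b.repr.injective
        ext i
        rw [map_zero, Finsupp.zero_apply]
        fin_cases i
        · exact h0
        · exact h1
      refine ⟨b.repr Y 1 / b.repr X 1, ?_⟩
      apply b.repr.injective
      ext i
      rw [map_smul, Finsupp.smul_apply, smul_eq_mul]
      fin_cases i
      · show b.repr Y 0 = b.repr Y 1 / b.repr X 1 * b.repr X 0
        rw [h0] at hcross ⊢
        have h2 : b.repr X 1 * b.repr Y 0 = 0 := by linarith
        rcases mul_eq_zero.1 h2 with h3 | h3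
        · exact absurd h3 h1
        · rw [h3, mul_zero]
      · show b.repr Y 1 = b.repr Y 1 / b.repr X 1 * b.repr X 1
        field_simp
    · refine ⟨b.repr Y 0 / b.repr X 0, ?_⟩
      apply b.repr.injective
      ext i
      rw [map_smul, Finsupp.smul_apply, smul_eq_mul]
      fin_cases i
      · show b.repr Y 0 = b.repr Y 0 / b.repr X 0 * b.repr X 0
        field_simp
      · show b.repr Y 1 = b.repr Y 0 / b.repr X 0 * b.repr X 1
        rw [div_mul_eq_mul_div, eq_div_iff h0]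
        linarith
  obtain ⟨c, hc'⟩ := hfin
  refine ⟨c, ?_⟩
  rw [hval2, hval2, ← hX, ← hY, hc']
  rfl

/-- the scalar product -/
noncomputable def ipL (u : E3) : E3 →L[ℝ] ℝ :=
  u.1 • (ContinuousLinearMap.fst ℝ ℝ (ℝ × ℝ)) +
    (u.2.1 • ((ContinuousLinearMap.fst ℝ ℝ ℝ).comp (ContinuousLinearMap.snd ℝ ℝ (ℝ × ℝ))) +
    u.2.2 • ((ContinuousLinearMap.snd ℝ ℝ ℝ).comp (ContinuousLinearMap.snd ℝ ℝ (ℝ × ℝ))))

theorem ipL_apply (u v : E3) : ipL u v = u.1 * v.1 + (u.2.1 * v.2.1 + u.2.2 * v.2.2) := rfl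

theorem ipL_pos {u : E3} (hu : u ≠ 0) : 0 < ipL u u := by
  rw [ipL_apply]
  by_contra h
  push Not at h
  apply hu
  have h1 : u.1 = 0 := by nlinarith [mul_self_nonneg u.1, mul_self_nonneg u.2.1, mul_self_nonneg u.2.2]
  have h2 : u.2.1 = 0 := by nlinarith [mul_self_nonneg u.1, mul_self_nonneg u.2.1, mul_self_nonneg u.2.2]
  have h3 : u.2.2 = 0 := by nlinarith [mul_self_nonneg u.1, mul_self_nonneg u.2.1, mul_self_nonneg u.2.2]
  exact Prod.ext h1 (Prod.ext h2 h3)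

theorem ipL_smul (c : ℝ) (u : E3) : ipL (c • u) = c • ipL u := by
  refine ContinuousLinearMap.ext fun v => ?_
  show ipL (c • u) v = c * ipL u v
  rw [ipL_apply, ipL_apply]
  show c * u.1 * v.1 + (c * u.2.1 * v.2.1 + c * u.2.2 * v.2.2) = _
  ring

theorem contDiff_ipL : ContDiff ℝ 1 ipL := by
  unfold ipL
  exact (contDiff_fst.smul contDiff_const).add
    (((contDiff_fst.comp contDiff_snd).smul contDiff_const).add
      ((contDiff_snd.comp contDiff_snd).smul contDiff_const))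

/-- the orthogonal projection onto a line -/
noncomputable def Pr (u : E3) : E3 →L[ℝ] E3 := (ipL u u)⁻¹ • (ipL u).smulRight u

theorem Pr_apply (u v : E3) : Pr u v = ((ipL u u)⁻¹ * ipL u v) • u := by
  show (ipL u u)⁻¹ • (ipL u v • u) = _
  rw [smul_smul]

theorem Pr_self {u : E3} (hu : u ≠ 0) : Pr u u = u := by
  rw [Pr_apply, inv_mul_cancel₀ (ipL_pos hu).ne', one_smul]

theorem Pr_smul {c : ℝ} (hc : c ≠ 0) (u : E3) : Pr (c • u) = Pr u := by
  refine ContinuousLinearMap.ext fun v => ?_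
  rw [Pr_apply, Pr_apply, ipL_smul, smul_smul]
  congr 1
  show (c * ipL u (c • u))⁻¹ * (c * ipL u v) * c = _
  rw [map_smul, smul_eq_mul]
  field_simp

theorem Pr_comp {u : E3} (hu : u ≠ 0) : (Pr u).comp (Pr u) = Pr u := by
  refine ContinuousLinearMap.ext fun v => ?_
  show Pr u (Pr u v) = Pr u v
  rw [Pr_apply u v, map_smul, Pr_self hu]

theorem trL_Pr {u : E3} (hu : u ≠ 0) : trL (Pr u) = 1 := by
  unfold Pr
  rw [map_smul, trL_apply]
  have h1 : (((ipL u).smulRight u : E3 →L[ℝ] E3) : E3 →ₗ[ℝ] E3) =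
      ((ipL u : E3 →ₗ[ℝ] ℝ)).smulRight u := rfl
  rw [h1, LinearMap.trace_smulRight, smul_eq_mul]
  exact inv_mul_cancel₀ (ipL_pos hu).ne'

theorem dis_Pr {u : E3} (hu : u ≠ 0) : dis (Pr u) = 1 := by
  unfold dis
  rw [Pr_comp hu, trL_Pr hu]
  norm_num

theorem Phi_Pr {u : E3} (hu : u ≠ 0) : Phi (Pr u) = Pr u := by
  unfold Phi
  rw [dis_Pr hu, trL_Pr hu, Pr_comp hu, Real.sqrt_one]
  norm_num

theorem Pr_ne {u : E3} (hu : u ≠ 0) : Pr u ≠ 0 := by
  intro h
  have h1 := Pr_self hu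
  rw [h] at h1
  exact hu h1.symm

theorem contDiffAt_Pr {F : Type*} [NormedAddCommGroup F] [NormedSpace ℝ F] {g : F → E3} {x : F}
    (hg : ContDiffAt ℝ 1 g x) (h0 : g x ≠ 0) : ContDiffAt ℝ 1 (fun y => Pr (g y)) x := by
  have h1 : ContDiffAt ℝ 1 (fun y => ipL (g y)) x := contDiff_ipL.contDiffAt.comp x hg
  have h2 : ContDiffAt ℝ 1 (fun y => ipL (g y) (g y)) x := h1.clm_apply hg
  have h3 : ContDiffAt ℝ 1 (fun y => (ipL (g y) (g y))⁻¹) x := h2.inv (ipL_pos h0).ne'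
  exact h3.smul (h1.smulRight hg)

theorem contDiff_dis : ContDiff ℝ 1 dis := by
  unfold dis
  exact (contDiff_const.mul (trL.contDiff.comp (contDiff_id.clm_comp contDiff_id))).sub
    (trL.contDiff.pow 2)

theorem contDiffAt_Phi {M : E3 →L[ℝ] E3} (hM : 0 < dis M) : ContDiffAt ℝ 1 Phi M := by
  unfold Phi
  have h1 : ContDiffAt ℝ 1 (fun N : E3 →L[ℝ] E3 => √(dis N)) M :=
    contDiff_dis.contDiffAt.sqrt hM.ne'
  exact ((contDiff_id.clm_comp contDiff_id).contDiffAt).sub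
    ((((trL.contDiff.contDiffAt).sub h1).div_const 2).smul contDiffAt_id)

/-! ### Functions of class `C¹` along a set -/

theorem C1At.sum {ι : Type*} {F : Type*} [NormedAddCommGroup F] [NormedSpace ℝ F] {S : Set E3}
    {p : E3} (J : Finset ι) (X : ι → E3 → F) (h : ∀ i ∈ J, C1At S (X i) p) :
    C1At S (fun q => ∑ i ∈ J, X i q) p := by
  classical
  have h1 : ∀ i, ∃ g : E3 → F, i ∈ J → ContDiffAt ℝ 1 g p ∧ ∀ᶠ q in 𝓝[S] p, X i q = g q := by
    intro i
    by_cases hi : i ∈ J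
    · obtain ⟨g, hg1, hg2⟩ := h i hi
      exact ⟨g, fun _ => ⟨hg1, hg2⟩⟩
    · exact ⟨0, fun h => absurd h hi⟩
  choose g hg using h1
  refine ⟨fun q => ∑ i ∈ J, g i q, ContDiffAt.sum fun i hi => (hg i hi).1, ?_⟩
  have h2 : ∀ᶠ q in 𝓝[S] p, ∀ i ∈ J, X i q = g i q :=
    (Filter.eventually_all_finset J).2 fun i hi => (hg i hi).2
  filter_upwards [h2] with q hq
  exact Finset.sum_congr rfl hq

theorem C1At.congr {F : Type*} [NormedAddCommGroup F] [NormedSpace ℝ F] {S : Set E3} {p : E3}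
    {X Y : E3 → F} (h : C1At S X p) (hXY : ∀ᶠ q in 𝓝[S] p, Y q = X q) : C1At S Y p := by
  obtain ⟨g, hg1, hg2⟩ := h
  refine ⟨g, hg1, ?_⟩
  filter_upwards [hg2, hXY] with q h1 h2
  rw [h2, h1]

theorem C1At.comp' {F G : Type*} [NormedAddCommGroup F] [NormedSpace ℝ F]
    [NormedAddCommGroup G] [NormedSpace ℝ G] {S : Set E3} {p : E3}
    {X : E3 → F} (h : C1At S X p) (hp : p ∈ S) {f : F → G} (hf : ContDiffAt ℝ 1 f (X p)) :
    C1At S (fun q => f (X q)) p := by
  obtain ⟨g, hg1, hg2⟩ := h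
  have h1 : X p = g p := hg2.self_of_nhdsWithin hp
  refine ⟨fun q => f (g q), ?_, ?_⟩
  · rw [h1] at hf
    exact hf.comp p hg1
  · filter_upwards [hg2] with q hq
    rw [hq]

theorem C1At.smul' {F : Type*} [NormedAddCommGroup F] [NormedSpace ℝ F] {S : Set E3} {p : E3}
    {X : E3 → F} (h : C1At S X p) {r : E3 → ℝ} (hr : ContDiffAt ℝ 1 r p) :
    C1At S (fun q => r q • X q) p := by
  obtain ⟨g, hg1, hg2⟩ := h
  refine ⟨fun q => r q • g q, hr.smul hg1, ?_⟩
  filter_upwards [hg2] with q hq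
  rw [hq]

/-- an open condition holds nearby along the set -/
theorem C1At.eventually {F : Type*} [NormedAddCommGroup F] [NormedSpace ℝ F] {S : Set E3} {p : E3}
    {X : E3 → F} (h : C1At S X p) (hp : p ∈ S) {O : Set F} (hO : IsOpen O) (hX : X p ∈ O) :
    ∀ᶠ q in 𝓝[S] p, X q ∈ O := by
  obtain ⟨g, hg1, hg2⟩ := h
  have h1 : X p = g p := hg2.self_of_nhdsWithin hp
  have h2 : ∀ᶠ q in 𝓝 p, g q ∈ O := hg1.continuousAt (hO.mem_nhds (h1 ▸ hX))
  filter_upwards [hg2, h2.filter_mono nhdsWithin_le_nhds] with q h3 h4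
  rw [h3]
  exact h4

/-! ### The theorem -/

theorem tGGlue : Pool.Agent.H812.Tm.GGlue := by
  intro F hF hreg W hW hWF Ω E hΩ hWΩ hE hpar
  set S : Set E3 := {q | F q = 0} with hS
  obtain ⟨ρ, hρ⟩ := SmoothPartitionOfUnity.exists_isSubordinate 𝓘(ℝ, E3) hW Ω hΩ hWΩ
  set M : E3 → (E3 →L[ℝ] E3) := fun p => ∑ᶠ i, ρ i p • Pr (E i p) with hM
  have hΩmem : ∀ i p, p ∈ tsupport (ρ i) → p ∈ Ω i := fun i p hp => hρ i hp
  have hΩmem' : ∀ i p, ρ i p ≠ 0 → p ∈ Ω i := fun i p hp =>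
    hρ i (subset_tsupport _ hp)
  -- `M` is `C¹` along the surface
  have hMC : ∀ p, F p = 0 → C1At S M p := by
    intro p hp
    have h1 : C1At S (fun q => ∑ i ∈ ρ.fintsupport p, ρ i q • Pr (E i q)) p := by
      apply C1At.sum
      intro i hi
      rw [ρ.mem_fintsupport_iff] at hi
      obtain ⟨h2, h3, -⟩ := hE i p (hΩmem i p hi) hp
      have h4 : C1At S (fun q => Pr (E i q)) p :=
        C1At.comp' h2 hp (f := Pr) (contDiffAt_Pr contDiffAt_id h3)
      exact C1At.smul' h4 (((ρ i).contMDiff.contDiff.of_le (by exact_mod_cast le_top)).contDiffAt)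
    refine C1At.congr h1 ?_
    have h5 : ∀ᶠ q in 𝓝 p, ρ.finsupport q ⊆ ρ.fintsupport p := ρ.eventually_finsupport_subset p
    filter_upwards [h5.filter_mono nhdsWithin_le_nhds] with q hq
    rw [hM]
    show ∑ᶠ i, ρ i q • Pr (E i q) = _
    rw [← ρ.sum_finsupport_smul_eq_finsum q (fun i q => Pr (E i q))]
    apply Finset.sum_subset hq
    intro i _ hi
    rw [ρ.mem_finsupport, Function.notMem_support] at hi
    rw [hi, zero_smul]
  -- the range is tangent
  have hMT : ∀ p, F p = 0 → ∀ v, fderiv ℝ F p (M p v) = 0 := by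
    intro p hp v
    rw [hM]
    show fderiv ℝ F p ((∑ᶠ i, ρ i p • Pr (E i p)) v) = 0
    rw [← ρ.sum_finsupport_smul_eq_finsum p (fun i q => Pr (E i q)),
      sum_apply, map_sum]
    apply Finset.sum_eq_zero
    intro i hi
    rw [ρ.mem_finsupport, Function.mem_support] at hi
    obtain ⟨-, -, h3⟩ := hE i p (hΩmem' i p hi) hp
    rw [smul_apply, Pr_apply, map_smul, map_smul, h3, smul_zero, smul_zero]
  -- the values on `W`
  have hMW : ∀ p ∈ W, ∀ j, p ∈ Ω j → M p = Pr (E j p) := by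
    intro p hp j hj
    have h1 : M p = ∑ᶠ i, ρ i p • Pr (E j p) := by
      rw [hM]
      apply finsum_congr
      intro i
      by_cases hi : ρ i p = 0
      · rw [hi, zero_smul, zero_smul]
      · obtain ⟨c, hc, hc'⟩ := hpar i j p hp (hΩmem' i p hi) hj
        rw [hc', Pr_smul hc]
    rw [h1, ← ρ.sum_finsupport_smul_eq_finsum p (fun _ _ => Pr (E j p)), ← Finset.sum_smul,
      ρ.sum_finsupport p hp, one_smul]
  set Q : E3 → (E3 →L[ℝ] E3) := fun p => Phi (M p) with hQ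
  set V : Set E3 := interior {p | F p = 0 → 0 < dis (M p) ∧ Q p ≠ 0} with hV
  have hEne : ∀ p ∈ W, ∀ j, p ∈ Ω j → E j p ≠ 0 := fun p hp j hj => (hE j p hj (hWF p hp)).2.1
  refine ⟨V, Q, isOpen_interior, ?_, ?_, ?_⟩
  · intro p hp
    obtain ⟨j, hj⟩ := Set.mem_iUnion.1 (hWΩ hp)
    have hp0 := hWF p hp
    have hM0 := hMW p hp j hj
    have hu := hEne p hp j hj
    have hd : 0 < dis (M p) := by
      rw [hM0, dis_Pr hu]
      exact one_pos
    have hQC : C1At S Q p := C1At.comp' (hMC p hp0) hp0 (contDiffAt_Phi hd)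
    have h1 : ∀ᶠ q in 𝓝[S] p, M q ∈ {N | 0 < dis N} :=
      C1At.eventually (hMC p hp0) hp0 (isOpen_lt continuous_const contDiff_dis.continuous) hd
    have h2 : ∀ᶠ q in 𝓝[S] p, Q q ∈ ({0}ᶜ : Set (E3 →L[ℝ] E3)) := by
      refine C1At.eventually hQC hp0 isOpen_compl_singleton ?_
      rw [Set.mem_compl_iff, Set.mem_singleton_iff, hQ]
      show Phi (M p) ≠ 0
      rw [hM0, Phi_Pr hu]
      exact Pr_ne hu
    rw [hV, mem_interior_iff_mem_nhds]
    have h3 : ∀ᶠ q in 𝓝[S] p, 0 < dis (M q) ∧ Q q ≠ 0 := by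
      filter_upwards [h1, h2] with q h3 h4
      exact ⟨h3, h4⟩
    rw [eventually_nhdsWithin_iff] at h3
    exact h3
  · intro p hp hp0
    obtain ⟨hd, hQ0⟩ := interior_subset hp hp0
    refine ⟨C1At.comp' (hMC p hp0) hp0 (contDiffAt_Phi hd), hQ0, ?_, ?_⟩
    · intro e
      show fderiv ℝ F p (M p (M p e) - ((trL (M p) - √(dis (M p))) / 2) • M p e) = 0
      rw [map_sub, map_smul, hMT p hp0, hMT p hp0, smul_zero, sub_zero]
    · intro e e' he
      exact rank_one (fderiv ℝ F p) (hreg p hp0) (M p) (hMT p hp0) hd.le e e' he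
  · intro i p hp hi
    refine ⟨E i p, ?_⟩
    rw [hQ]
    show Phi (M p) (E i p) = E i p
    rw [hMW p hp i hi, Phi_Pr (hEne p hp i hi), Pr_self (hEne p hp i hi)]

end Pool.Agent.H289.TmGlue
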